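import Mathlib

set_option autoImplicit false

open LaurentPolynomial Finset

namespace Pool.Agent.Q280.Ritt

abbrev L := LaurentPolynomial ℝ

lemma coeff_T_mul (j x : ℤ) (P : L) : (T j * P).coeff x = P.coeff (x - j) := by
  have := AddMonoidAlgebra.coeff_single_mul_apply P (1:ℝ) j x
  rw [show (T j : L) = AddMonoidAlgebra.single j 1 from rfl, this]
  simp [sub_eq_add_neg, add_comm]

lemma coeff_sum' {ι : Type*} (s : Finset ι) (f : ι → L) (x : ℤ) :
    (∑ i ∈ s, f i).coeff x = ∑ i ∈ s, (f i).coeff x := by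
  rw [AddMonoidAlgebra.coeff_sum]; simp

/-- `D N = ∑_{|j| ≤ N} T^j`. -/
noncomputable def D (N : ℕ) : L := ∑ j ∈ Icc (-(N:ℤ)) N, T j

/-- the uniform probability measure on `{-N, …, N}`. -/
noncomputable def U (N : ℕ) : L := (1 / (2 * (N:ℝ) + 1)) • D N

lemma coeff_D (N : ℕ) (x : ℤ) : (D N).coeff x = if |x| ≤ N then 1 else 0 := by
  unfold D
  rw [coeff_sum']
  simp only [T_apply]
  rw [Finset.sum_ite_eq' ]
  simp [abs_le]

lemma coeff_D_mul (N : ℕ) (P : L) (x : ℤ) :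
    (D N * P).coeff x = ∑ j ∈ Icc (-(N:ℤ)) N, P.coeff (x - j) := by
  unfold D
  rw [Finset.sum_mul, coeff_sum']
  simp only [coeff_T_mul]

lemma T_one_sub_one_mul_D (N : ℕ) : (T 1 - 1) * D N = T ((N:ℤ) + 1) - T (-(N:ℤ)) := by
  ext x
  have h1 : ((T 1 - 1) * D N).coeff x = (D N).coeff (x - 1) - (D N).coeff x := by
    rw [sub_mul, one_mul, AddMonoidAlgebra.coeff_sub, Finsupp.sub_apply, coeff_T_mul]
  rw [h1, AddMonoidAlgebra.coeff_sub, Finsupp.sub_apply, coeff_D, coeff_D, T_apply, T_apply]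
  simp only [abs_le]
  split_ifs <;> first | (exfalso; omega) | norm_num

lemma T_sub_one_mul_D (j N : ℕ) : (T (j:ℤ) - 1) * D N =
    ∑ i ∈ range j, (T ((N:ℤ) + 1 + i) - T (-(N:ℤ) + i)) := by
  induction j with
  | zero => simp
  | succ j ih =>
    rw [Finset.sum_range_succ, ← ih]
    have e : (T ((j + 1 : ℕ) : ℤ) : L) = T (j:ℤ) * T 1 := by
      rw [← T_add]; push_cast; rfl
    have e2 : (T ((j + 1 : ℕ) : ℤ) - 1) * D N = T (j:ℤ) * ((T 1 - 1) * D N) + (T (j:ℤ) - 1) * D N := by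
      rw [e]; ring
    rw [e2, T_one_sub_one_mul_D, mul_sub, ← T_add, ← T_add, add_comm]
    congr 2
    · congr 1; ring
    · congr 1; ring

/-- operator norm on bounded sequences. -/
def Op (P : L) (C : ℝ) : Prop :=
  ∀ (Q : L) (B : ℝ), (∀ x, |Q.coeff x| ≤ B) → ∀ x, |(P * Q).coeff x| ≤ C * B

lemma op_T (j : ℤ) : Op (T j) 1 := by
  intro Q B h x
  rw [coeff_T_mul, one_mul]; exact h _

lemma op_add {P P' : L} {C C' : ℝ} (h : Op P C) (h' : Op P' C') : Op (P + P') (C + C') := by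
  intro Q B hQ x
  rw [add_mul, AddMonoidAlgebra.coeff_add, Finsupp.add_apply, add_mul]
  exact (abs_add_le _ _).trans (add_le_add (h Q B hQ x) (h' Q B hQ x))

lemma op_sub {P P' : L} {C C' : ℝ} (h : Op P C) (h' : Op P' C') : Op (P - P') (C + C') := by
  intro Q B hQ x
  rw [sub_mul, AddMonoidAlgebra.coeff_sub, Finsupp.sub_apply, add_mul]
  exact (abs_sub _ _).trans (add_le_add (h Q B hQ x) (h' Q B hQ x))

lemma op_zero : Op 0 0 := by
  intro Q B hQ x
  simp

lemma op_sum {ι : Type*} (s : Finset ι) (f : ι → L) (c : ι → ℝ) (h : ∀ i ∈ s, Op (f i) (c i)) :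
    Op (∑ i ∈ s, f i) (∑ i ∈ s, c i) := by
  classical
  induction s using Finset.induction_on with
  | empty => simpa using op_zero
  | insert a s ha ih =>
    rw [Finset.sum_insert ha, Finset.sum_insert ha]
    exact op_add (h a (by simp)) (ih fun i hi => h i (by simp [hi]))

lemma op_smul {P : L} {C : ℝ} (a : ℝ) (h : Op P C) : Op (a • P) (|a| * C) := by
  intro Q B hQ x
  rw [smul_mul_assoc, AddMonoidAlgebra.coeff_smul_apply, smul_eq_mul, abs_mul, mul_assoc]
  exact mul_le_mul_of_nonneg_left (h Q B hQ x) (abs_nonneg _)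

lemma op_mul {P P' : L} {C C' : ℝ} (h : Op P C) (h' : Op P' C') : Op (P * P') (C * C') := by
  intro Q B hQ x
  rw [mul_assoc, mul_assoc]
  exact h _ _ (h' Q B hQ) x

lemma op_nonneg {P : L} {C : ℝ} (h : Op P C) : 0 ≤ C := by
  have := h 0 1 (by intro x; simp) 0
  simpa using this

lemma op_mono {P : L} {C C' : ℝ} (h : Op P C) (hC : C ≤ C') : Op P C' := by
  intro Q B hQ x
  have hB : 0 ≤ B := (abs_nonneg _).trans (hQ 0)
  exact (h Q B hQ x).trans (mul_le_mul_of_nonneg_right hC hB)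

lemma op_D (N : ℕ) : Op (D N) (2 * N + 1) := by
  have := op_sum (Icc (-(N:ℤ)) N) (fun j => (T j : L)) (fun _ => (1:ℝ)) (fun i _ => op_T i)
  unfold D
  convert this using 1
  simp only [sum_const, Int.card_Icc, nsmul_eq_mul, mul_one]
  have : ((N:ℤ) + 1 - -(N:ℤ)).toNat = 2 * N + 1 := by omega
  rw [this]; push_cast; ring

lemma two_N_pos (N : ℕ) : (0:ℝ) < 2 * N + 1 := by positivity

lemma op_U (N : ℕ) : Op (U N) 1 := by
  have := op_smul (1 / (2 * (N:ℝ) + 1)) (op_D N)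
  rw [abs_of_pos (by positivity), one_div, inv_mul_cancel₀ (two_N_pos N).ne'] at this
  unfold U
  rwa [one_div]

/-- the smoothing factor -/
noncomputable def s (k N : ℕ) : ℝ := min 1 ((k:ℝ) / (2 * N + 1))

lemma s_nonneg (k N : ℕ) : 0 ≤ s k N := le_min zero_le_one (by positivity)

lemma s_le_one (k N : ℕ) : s k N ≤ 1 := min_le_left _ _

lemma s_mono {k k' : ℕ} (h : k ≤ k') (N : ℕ) : s k N ≤ s k' N := by
  unfold s
  apply min_le_min le_rfl
  have : (k:ℝ) ≤ k' := by exact_mod_cast h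
  exact div_le_div_of_nonneg_right this (two_N_pos N).le

lemma op_one : Op 1 1 := by
  have := op_T 0
  rwa [T_zero] at this

lemma op_Tsub_U (j N : ℕ) : Op ((T (j:ℤ) - 1) * U N) (2 * s j N) := by
  have h1 : Op ((T (j:ℤ) - 1) * U N) 2 := by
    have := op_mul (op_sub (op_T (j:ℤ)) op_one) (op_U N)
    norm_num at this
    exact this
  have h2 : Op ((T (j:ℤ) - 1) * U N) (2 * ((j:ℝ) / (2 * N + 1))) := by
    have e : (T (j:ℤ) - 1) * U N = (1 / (2 * (N:ℝ) + 1)) • ((T (j:ℤ) - 1) * D N) := by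
      unfold U; rw [mul_smul_comm]
    rw [e, T_sub_one_mul_D]
    have := op_smul (1 / (2 * (N:ℝ) + 1)) (op_sum (range j)
      (fun i => (T ((N:ℤ) + 1 + i) - T (-(N:ℤ) + i) : L)) (fun _ => (2:ℝ))
      (fun i _ => by
        have := op_sub (op_T ((N:ℤ) + 1 + i)) (op_T (-(N:ℤ) + i))
        norm_num at this
        exact this))
    rw [abs_of_pos (by positivity)] at this
    convert this using 1
    simp only [sum_const, card_range, nsmul_eq_mul]
    field_simp
  unfold s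
  rcases le_total (1:ℝ) ((j:ℝ) / (2 * N + 1)) with h | h
  · rw [min_eq_left h]; simpa using h1
  · rw [min_eq_right h]; exact h2

lemma op_Tneg_U (j N : ℕ) : Op ((1 - T (-(j:ℤ))) * U N) (2 * s j N) := by
  have := op_mul (op_T (-(j:ℤ))) (op_Tsub_U j N)
  rw [one_mul] at this
  convert this using 1
  rw [← mul_assoc, mul_sub, ← T_add]
  simp

lemma one_sub_U (k : ℕ) : 1 - U k =
    (-(1 / (2 * (k:ℝ) + 1))) • ∑ j ∈ Icc 1 k, ((T (j:ℤ) - 1) * (1 - T (-(j:ℤ))) : L) := by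
  have hD : (D k : L) = 1 + ∑ j ∈ Icc 1 k, (T (j:ℤ) + T (-(j:ℤ))) := by
    induction k with
    | zero => simp [D]
    | succ k ih =>
      rw [Finset.sum_Icc_succ_top (by omega), ← add_assoc, ← ih]
      ext x
      rw [AddMonoidAlgebra.coeff_add, AddMonoidAlgebra.coeff_add, Finsupp.add_apply,
        Finsupp.add_apply, coeff_D, coeff_D, T_apply, T_apply]
      simp only [abs_le]
      push_cast
      split_ifs <;> first | (exfalso; omega) | norm_num
  have h2 : ∀ j : ℕ, ((T (j:ℤ) - 1) * (1 - T (-(j:ℤ))) : L) = T (j:ℤ) + T (-(j:ℤ)) - 2 := by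
    intro j
    have : (T (j:ℤ) : L) * T (-(j:ℤ)) = 1 := by rw [← T_add]; simp
    calc ((T (j:ℤ) - 1) * (1 - T (-(j:ℤ))) : L) = T (j:ℤ) - T (j:ℤ) * T (-(j:ℤ)) - 1 + T (-(j:ℤ)) := by ring
      _ = _ := by rw [this]; ring
  simp only [h2]
  rw [Finset.sum_sub_distrib]
  have h3 : ∑ j ∈ Icc 1 k, (T (j:ℤ) + T (-(j:ℤ)) : L) = D k - 1 := by rw [hD]; ring
  rw [h3]
  have h4 : ∑ _j ∈ Icc 1 k, (2 : L) = (2 * (k:ℝ)) • (1 : L) := by
    rw [Finset.sum_const, Nat.card_Icc, smul_eq_C_mul, mul_one]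
    have : (C (2:ℝ) : L) = 2 := map_ofNat C 2
    simp [this]
    ring
  rw [h4]
  unfold U
  have hk := (two_N_pos k).ne'
  have h5 : (1 : L) = ((1 / (2 * (k:ℝ) + 1)) * (2 * (k:ℝ) + 1)) • (1 : L) := by
    rw [one_div, inv_mul_cancel₀ hk, one_smul]
  have h6 : (D k - 1 - (2 * (k:ℝ)) • (1 : L)) = D k - (2 * (k:ℝ) + 1) • (1 : L) := by
    rw [add_smul, one_smul]; abel
  rw [h6, smul_sub, smul_smul]
  conv_lhs => rw [h5]
  rw [neg_smul, neg_mul, neg_smul]
  abel

lemma op_key (k N N' : ℕ) : Op ((1 - U k) * (U N * U N')) (2 * (s k N * s k N')) := by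
  have e : (1 - U k) * (U N * U N') = (-(1 / (2 * (k:ℝ) + 1))) • ∑ j ∈ Icc 1 k,
      (((T (j:ℤ) - 1) * U N) * ((1 - T (-(j:ℤ))) * U N') : L) := by
    rw [one_sub_U, smul_mul_assoc, Finset.sum_mul]
    congr 1
    apply Finset.sum_congr rfl
    intro j _
    ring
  rw [e]
  have h := op_smul (-(1 / (2 * (k:ℝ) + 1))) (op_sum (Icc 1 k)
    (fun j => (((T (j:ℤ) - 1) * U N) * ((1 - T (-(j:ℤ))) * U N') : L))
    (fun j => 2 * s k N * (2 * s k N')) (fun j hj => by
      apply op_mono (op_mul (op_Tsub_U j N) (op_Tneg_U j N'))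
      have hjk := (Finset.mem_Icc.mp hj).2
      have h1 := s_mono hjk N
      have h2 := s_mono hjk N'
      have h3 := s_nonneg j N
      have h4 := s_nonneg j N'
      have h5 := s_nonneg k N
      gcongr))
  apply op_mono h
  rw [abs_neg, abs_of_pos (by positivity)]
  simp only [sum_const, Nat.card_Icc, nsmul_eq_mul, add_tsub_cancel_right]
  have h1 := s_nonneg k N
  have h2 := s_nonneg k N'
  have h3 : (1 / (2 * (k:ℝ) + 1)) * k ≤ 1 / 2 := by
    rw [one_div, inv_mul_le_iff₀ (two_N_pos k)]; linarith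
  calc 1 / (2 * (k:ℝ) + 1) * (k * (2 * s k N * (2 * s k N')))
      = (1 / (2 * (k:ℝ) + 1) * k) * (4 * (s k N * s k N')) := by ring
    _ ≤ 1 / 2 * (4 * (s k N * s k N')) := by
        apply mul_le_mul_of_nonneg_right h3 (by positivity)
    _ = _ := by ring

end Pool.Agent.Q280.Ritt
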