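import Pool.Agent.Q280.Ritt.Base

set_option autoImplicit false

open LaurentPolynomial Finset

namespace Pool.Agent.Q280.Ritt

lemma coeff_D' (N : ℕ) (x : ℤ) : (D N).coeff x = if x.natAbs ≤ N then 1 else 0 := by
  rw [coeff_D]
  have : |x| ≤ (N:ℤ) ↔ x.natAbs ≤ N := by
    rw [abs_le]; omega
  simp only [this]

/-- finitely supported, nonnegative, symmetric, non-increasing on ℕ. -/
structure Uni (P : L) : Prop where
  nonneg : ∀ x, 0 ≤ P.coeff x
  symm : ∀ x, P.coeff (-x) = P.coeff x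
  anti : ∀ n : ℕ, P.coeff ((n:ℤ) + 1) ≤ P.coeff n

lemma Uni.anti' {P : L} (h : Uni P) {m n : ℕ} (hmn : m ≤ n) : P.coeff n ≤ P.coeff m := by
  induction n, hmn using Nat.le_induction with
  | base => rfl
  | succ n _ ih =>
    refine le_trans ?_ ih
    have := h.anti n
    push_cast
    exact this

lemma Uni.natAbs {P : L} (h : Uni P) (x : ℤ) : P.coeff (x.natAbs : ℤ) = P.coeff x := by
  rcases Int.natAbs_eq x with hx | hx
  · rw [← hx]
  · conv_rhs => rw [hx]
    rw [h.symm]

lemma Uni.le_of_natAbs {P : L} (h : Uni P) {x y : ℤ} (hxy : x.natAbs ≤ y.natAbs) :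
    P.coeff y ≤ P.coeff x := by
  rw [← h.natAbs x, ← h.natAbs y]
  exact h.anti' hxy

lemma Uni.add {P Q : L} (h : Uni P) (h' : Uni Q) : Uni (P + Q) := by
  refine ⟨fun x => ?_, fun x => ?_, fun n => ?_⟩ <;>
    simp only [AddMonoidAlgebra.coeff_add, Finsupp.add_apply]
  · exact add_nonneg (h.nonneg x) (h'.nonneg x)
  · rw [h.symm, h'.symm]
  · exact add_le_add (h.anti n) (h'.anti n)

lemma Uni.zero : Uni 0 := by
  refine ⟨fun x => ?_, fun x => ?_, fun n => ?_⟩ <;> simp

lemma Uni.smul {P : L} (h : Uni P) {a : ℝ} (ha : 0 ≤ a) : Uni (a • P) := by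
  refine ⟨fun x => ?_, fun x => ?_, fun n => ?_⟩ <;>
    simp only [AddMonoidAlgebra.coeff_smul_apply, smul_eq_mul]
  · exact mul_nonneg ha (h.nonneg x)
  · rw [h.symm]
  · exact mul_le_mul_of_nonneg_left (h.anti n) ha

lemma Uni.sum {ι : Type*} (s : Finset ι) (f : ι → L) (h : ∀ i ∈ s, Uni (f i)) :
    Uni (∑ i ∈ s, f i) := by
  classical
  induction s using Finset.induction_on with
  | empty => simpa using Uni.zero
  | insert a s ha ih =>
    rw [Finset.sum_insert ha]
    exact (h a (by simp)).add (ih fun i hi => h i (by simp [hi]))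

lemma uni_D_mul (N : ℕ) {P : L} (h : Uni P) : Uni (D N * P) := by
  refine ⟨fun x => ?_, fun x => ?_, fun n => ?_⟩
  · rw [coeff_D_mul]
    exact Finset.sum_nonneg fun j _ => h.nonneg _
  · rw [coeff_D_mul, coeff_D_mul]
    refine Finset.sum_bij' (fun j _ => -j) (fun j _ => -j) ?_ ?_ ?_ ?_ ?_
    · intro j hj; simp only [Finset.mem_Icc] at hj ⊢; omega
    · intro j hj; simp only [Finset.mem_Icc] at hj ⊢; omega
    · intro j _; simp
    · intro j _; simp
    · intro j _
      rw [← h.symm]; congr 1; ring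
  · have e : (D N * P).coeff n - (D N * P).coeff ((n:ℤ) + 1) =
        P.coeff ((n:ℤ) - N) - P.coeff ((n:ℤ) + 1 + N) := by
      have h1 : (((T 1 - 1) * D N) * P).coeff ((n:ℤ) + 1) =
          (D N * P).coeff n - (D N * P).coeff ((n:ℤ) + 1) := by
        rw [mul_assoc, sub_mul, one_mul, AddMonoidAlgebra.coeff_sub, Finsupp.sub_apply, coeff_T_mul]
        simp
      rw [← h1, T_one_sub_one_mul_D, sub_mul, AddMonoidAlgebra.coeff_sub, Finsupp.sub_apply,
        coeff_T_mul, coeff_T_mul]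
      congr 2 <;> ring
    have h2 : P.coeff ((n:ℤ) + 1 + N) ≤ P.coeff ((n:ℤ) - N) := by
      apply h.le_of_natAbs; omega
    linarith

lemma uni_one : Uni 1 := by
  have e : ∀ x : ℤ, (1 : L).coeff x = if x = 0 then 1 else 0 := by
    intro x
    have := T_apply (R := ℝ) x 0
    rw [T_zero] at this
    rw [this]
    by_cases hx : x = 0
    · simp [hx]
    · rw [if_neg hx, if_neg (fun h => hx h.symm)]
  refine ⟨fun x => ?_, fun x => ?_, fun n => ?_⟩
  · rw [e]; split_ifs <;> norm_num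
  · rw [e, e]; simp
  · rw [e, e, if_neg (by omega)]
    split_ifs <;> norm_num

lemma uni_D (N : ℕ) : Uni (D N) := by
  have := uni_D_mul N uni_one
  rwa [mul_one] at this

lemma uni_U (N : ℕ) : Uni (U N) := (uni_D N).smul (by positivity)

lemma exists_supp (P : L) : ∃ R₀ : ℕ, ∀ y : ℤ, R₀ ≤ y.natAbs → P.coeff y = 0 := by
  refine ⟨(P.coeff.support.sup Int.natAbs) + 1, fun y hy => ?_⟩
  by_contra hne
  have : y ∈ P.coeff.support := Finsupp.mem_support_iff.mpr hne
  have := Finset.le_sup (f := Int.natAbs) this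
  omega

lemma uni_repr {P : L} (h : Uni P) {R : ℕ} (hR : ∀ y : ℤ, R ≤ y.natAbs → P.coeff y = 0) :
    P = ∑ r ∈ range R, (P.coeff r - P.coeff ((r:ℤ) + 1)) • D r := by
  ext x
  rw [coeff_sum']
  simp only [AddMonoidAlgebra.coeff_smul_apply, smul_eq_mul, coeff_D']
  have key : ∀ R : ℕ, x.natAbs ≤ R → ∑ r ∈ range R, (P.coeff r - P.coeff ((r:ℤ) + 1)) *
      (if x.natAbs ≤ r then (1:ℝ) else 0) = P.coeff x - P.coeff R := by
    intro R hR
    induction R, hR using Nat.le_induction with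
    | base =>
      rw [Finset.sum_eq_zero]
      · rw [h.natAbs, sub_self]
      · intro r hr
        rw [Finset.mem_range] at hr
        rw [if_neg, mul_zero]
        omega
    | succ n hn ih =>
      rw [Finset.sum_range_succ, ih, if_pos (by omega)]
      push_cast
      ring
  rcases le_or_gt x.natAbs R with hx | hx
  · rw [key R hx, hR (R:ℤ) (by simp), sub_zero]
  · rw [hR x hx.le, Finset.sum_eq_zero]
    intro r hr
    rw [Finset.mem_range] at hr
    rw [if_neg, mul_zero]
    omega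

lemma Uni.mul {P Q : L} (h : Uni P) (h' : Uni Q) : Uni (P * Q) := by
  obtain ⟨R, hR⟩ := exists_supp P
  rw [uni_repr h hR, Finset.sum_mul]
  apply Uni.sum
  intro r _
  rw [smul_mul_assoc]
  apply (uni_D_mul r h').smul
  linarith [h.anti r]

lemma Uni.pow {P : L} (h : Uni P) (n : ℕ) : Uni (P ^ n) := by
  induction n with
  | zero => simpa using uni_one
  | succ n ih => rw [pow_succ]; exact ih.mul h

lemma Uni.prod {ι : Type*} (s : Finset ι) (f : ι → L) (h : ∀ i ∈ s, Uni (f i)) :
    Uni (∏ i ∈ s, f i) := by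
  classical
  induction s using Finset.induction_on with
  | empty => simpa using uni_one
  | insert a s ha ih =>
    rw [Finset.prod_insert ha]
    exact (h a (by simp)).mul (ih fun i hi => h i (by simp [hi]))

/-- total mass: evaluation at `T = 1`. -/
noncomputable def mass : L →+* ℝ := LaurentPolynomial.eval₂ (RingHom.id ℝ) 1

lemma mass_T (j : ℤ) : mass (T j) = 1 := by
  unfold mass; rw [eval₂_T]; simp

lemma mass_smul (a : ℝ) (P : L) : mass (a • P) = a * mass P := by
  rw [smul_eq_C_mul, map_mul]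
  unfold mass
  rw [eval₂_C]; simp

lemma mass_D (N : ℕ) : mass (D N) = 2 * N + 1 := by
  unfold D
  rw [map_sum]
  simp only [mass_T, sum_const, Int.card_Icc, nsmul_eq_mul, mul_one]
  have : ((N:ℤ) + 1 - -(N:ℤ)).toNat = 2 * N + 1 := by omega
  rw [this]; push_cast; ring

lemma mass_U (N : ℕ) : mass (U N) = 1 := by
  unfold U
  rw [mass_smul, mass_D, one_div, inv_mul_cancel₀ (two_N_pos N).ne']

lemma mass_nonneg {P : L} (h : Uni P) : 0 ≤ mass P := by
  obtain ⟨R, hR⟩ := exists_supp P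
  rw [uni_repr h hR, map_sum]
  apply Finset.sum_nonneg
  intro r _
  rw [mass_smul, mass_D]
  have := h.anti r
  exact mul_nonneg (by linarith) (by positivity)

lemma coeff_mul_eq (P Q : L) (x : ℤ) :
    (P * Q).coeff x = ∑ j ∈ P.coeff.support, P.coeff j * Q.coeff (x - j) := by
  have := AddMonoidAlgebra.coeff_mul_apply_left P Q x
  rw [this, Finsupp.sum]
  apply Finset.sum_congr rfl
  intro j _
  congr 2; ring

/-- `P` is dominated by a symmetric non-increasing kernel of mass at most `C`. -/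
def Dom (P : L) (C : ℝ) : Prop := ∃ H : L, Uni H ∧ mass H ≤ C ∧ ∀ x, |P.coeff x| ≤ H.coeff x

lemma Dom.nonneg {P : L} {C : ℝ} (h : Dom P C) : 0 ≤ C := by
  obtain ⟨H, h1, h2, _⟩ := h
  exact (mass_nonneg h1).trans h2

lemma Dom.mono {P : L} {C C' : ℝ} (h : Dom P C) (hC : C ≤ C') : Dom P C' := by
  obtain ⟨H, h1, h2, h3⟩ := h
  exact ⟨H, h1, h2.trans hC, h3⟩

lemma dom_zero : Dom 0 0 := ⟨0, Uni.zero, by simp, by simp⟩

lemma dom_uni {P : L} (h : Uni P) : Dom P (mass P) :=
  ⟨P, h, le_rfl, fun x => (abs_of_nonneg (h.nonneg x)).le⟩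

lemma Dom.add {P P' : L} {C C' : ℝ} (h : Dom P C) (h' : Dom P' C') : Dom (P + P') (C + C') := by
  obtain ⟨H, h1, h2, h3⟩ := h
  obtain ⟨H', h1', h2', h3'⟩ := h'
  refine ⟨H + H', h1.add h1', by rw [map_add]; exact add_le_add h2 h2', fun x => ?_⟩
  simp only [AddMonoidAlgebra.coeff_add, Finsupp.add_apply]
  exact (abs_add_le _ _).trans (add_le_add (h3 x) (h3' x))

lemma Dom.sum {ι : Type*} (s : Finset ι) (f : ι → L) (c : ι → ℝ) (h : ∀ i ∈ s, Dom (f i) (c i)) :
    Dom (∑ i ∈ s, f i) (∑ i ∈ s, c i) := by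
  classical
  induction s using Finset.induction_on with
  | empty => simpa using dom_zero
  | insert a s ha ih =>
    rw [Finset.sum_insert ha, Finset.sum_insert ha]
    exact (h a (by simp)).add (ih fun i hi => h i (by simp [hi]))

lemma Dom.smul {P : L} {C : ℝ} (h : Dom P C) (a : ℝ) : Dom (a • P) (|a| * C) := by
  obtain ⟨H, h1, h2, h3⟩ := h
  refine ⟨|a| • H, h1.smul (abs_nonneg a), ?_, fun x => ?_⟩
  · rw [mass_smul]; exact mul_le_mul_of_nonneg_left h2 (abs_nonneg a)
  · simp only [AddMonoidAlgebra.coeff_smul_apply, smul_eq_mul, abs_mul]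
    exact mul_le_mul_of_nonneg_left (h3 x) (abs_nonneg a)

lemma Dom.mul {P P' : L} {C C' : ℝ} (h : Dom P C) (h' : Dom P' C') : Dom (P * P') (C * C') := by
  have hC := h.nonneg
  obtain ⟨H, h1, h2, h3⟩ := h
  obtain ⟨H', h1', h2', h3'⟩ := h'
  refine ⟨H * H', h1.mul h1', ?_, fun x => ?_⟩
  · rw [map_mul]; exact mul_le_mul h2 h2' (mass_nonneg h1') hC
  · rw [coeff_mul_eq, coeff_mul_eq]
    have hsub : P.coeff.support ⊆ H.coeff.support := by
      intro j hj
      rw [Finsupp.mem_support_iff] at hj ⊢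
      intro h0
      have := h3 j
      rw [h0] at this
      exact hj (abs_nonpos_iff.mp this)
    calc |∑ j ∈ P.coeff.support, P.coeff j * P'.coeff (x - j)|
        ≤ ∑ j ∈ P.coeff.support, |P.coeff j * P'.coeff (x - j)| := Finset.abs_sum_le_sum_abs _ _
      _ ≤ ∑ j ∈ P.coeff.support, H.coeff j * H'.coeff (x - j) := by
          apply Finset.sum_le_sum
          intro j _
          rw [abs_mul]
          exact mul_le_mul (h3 j) (h3' _) (abs_nonneg _) (h1.nonneg j)
      _ ≤ ∑ j ∈ H.coeff.support, H.coeff j * H'.coeff (x - j) := by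
          apply Finset.sum_le_sum_of_subset_of_nonneg hsub
          intro j _ _
          exact mul_nonneg (h1.nonneg j) (h1'.nonneg _)

lemma Dom.pow {P : L} {C : ℝ} (h : Dom P C) (n : ℕ) : Dom (P ^ n) (C ^ n) := by
  induction n with
  | zero =>
    have := dom_uni uni_one
    rw [map_one] at this
    simpa using this
  | succ n ih => rw [pow_succ, pow_succ]; exact ih.mul h

lemma Dom.neg {P : L} {C : ℝ} (h : Dom P C) : Dom (-P) C := by
  have := h.smul (-1)
  simpa using this

lemma Dom.sub {P P' : L} {C C' : ℝ} (h : Dom P C) (h' : Dom P' C') : Dom (P - P') (C + C') := by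
  rw [sub_eq_add_neg]; exact h.add h'.neg

/-- bounded coefficients and small support. -/
lemma dom_of_bound {P : L} {B : ℝ} {W : ℕ} (hB : ∀ x, |P.coeff x| ≤ B)
    (hW : ∀ x : ℤ, W < x.natAbs → P.coeff x = 0) : Dom P (B * (2 * W + 1)) := by
  have hB0 : 0 ≤ B := (abs_nonneg _).trans (hB 0)
  refine ⟨B • D W, (uni_D W).smul hB0, ?_, fun x => ?_⟩
  · rw [mass_smul, mass_D]
  · simp only [AddMonoidAlgebra.coeff_smul_apply, smul_eq_mul, coeff_D']
    split_ifs with h
    · simpa using hB x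
    · rw [hW x (by omega)]; simp

/-- support of a product -/
lemma supp_mul {P Q : L} {a b : ℕ} (hP : ∀ x : ℤ, a < x.natAbs → P.coeff x = 0)
    (hQ : ∀ x : ℤ, b < x.natAbs → Q.coeff x = 0) :
    ∀ x : ℤ, a + b < x.natAbs → (P * Q).coeff x = 0 := by
  intro x hx
  rw [coeff_mul_eq]
  apply Finset.sum_eq_zero
  intro j _
  by_cases hj : a < j.natAbs
  · rw [hP j hj, zero_mul]
  · rw [hQ (x - j) (by omega), mul_zero]

lemma supp_U (N : ℕ) : ∀ x : ℤ, N < x.natAbs → (U N).coeff x = 0 := by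
  intro x hx
  unfold U
  rw [AddMonoidAlgebra.coeff_smul_apply, coeff_D', if_neg (by omega), smul_zero]

lemma supp_one_sub_U (k : ℕ) : ∀ x : ℤ, k < x.natAbs → (1 - U k).coeff x = 0 := by
  intro x hx
  rw [AddMonoidAlgebra.coeff_sub, Finsupp.sub_apply, supp_U k x hx]
  have := T_apply (R := ℝ) x 0
  rw [T_zero] at this
  rw [this, if_neg (by omega), sub_zero]

lemma coeff_U_le (N : ℕ) (x : ℤ) : |(U N).coeff x| ≤ 1 / (2 * (N:ℝ) + 1) := by
  unfold U
  rw [AddMonoidAlgebra.coeff_smul_apply, coeff_D', smul_eq_mul]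
  split_ifs
  · rw [mul_one, abs_of_pos (by positivity)]
  · simp; positivity

lemma U_zero : U 0 = 1 := by
  unfold U D
  simp

/-- one large block. -/
lemma dom_key_max (k N N' M : ℕ) (h1 : N ≤ M) (h2 : N' ≤ M) :
    Dom ((1 - U k) * (U N * U N' * U M)) (8 * (s k N * s k N')) := by
  rcases Nat.eq_zero_or_pos k with rfl | hk
  · rw [U_zero, sub_self, zero_mul]
    apply dom_zero.mono
    have := s_nonneg 0 N
    have := s_nonneg 0 N'
    positivity
  rcases le_or_gt k M with hkM | hkM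
  · have hb : ∀ x, |((1 - U k) * (U N * U N' * U M)).coeff x| ≤
        2 * (s k N * s k N') * (1 / (2 * (M:ℝ) + 1)) := by
      have := op_key k N N' (U M) (1 / (2 * (M:ℝ) + 1)) (coeff_U_le M)
      intro x
      rw [← mul_assoc]
      exact this x
    have hs : ∀ x : ℤ, 4 * M < x.natAbs → ((1 - U k) * (U N * U N' * U M)).coeff x = 0 := by
      intro x hx
      apply supp_mul (supp_one_sub_U k) (supp_mul (supp_mul (supp_U N) (supp_U N')) (supp_U M))
      omega
    apply (dom_of_bound hb hs).mono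
    have h3 := s_nonneg k N
    have h4 := s_nonneg k N'
    have h5 : (1 / (2 * (M:ℝ) + 1)) * (2 * ((4 * M : ℕ) : ℝ) + 1) ≤ 4 := by
      rw [one_div, inv_mul_le_iff₀ (two_N_pos M)]
      push_cast
      linarith
    calc 2 * (s k N * s k N') * (1 / (2 * (M:ℝ) + 1)) * (2 * ((4 * M : ℕ) : ℝ) + 1)
        = (2 * (s k N * s k N')) * ((1 / (2 * (M:ℝ) + 1)) * (2 * ((4 * M : ℕ) : ℝ) + 1)) := by ring
      _ ≤ (2 * (s k N * s k N')) * 4 := by
          apply mul_le_mul_of_nonneg_left h5 (by positivity)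
      _ = _ := by ring
  · have hlow : ∀ n : ℕ, n ≤ M → 1 / 2 ≤ s k n := by
      intro n hn
      unfold s
      apply le_min (by norm_num)
      rw [le_div_iff₀ (two_N_pos n)]
      have : (n:ℝ) + 1 ≤ k := by exact_mod_cast (by omega : n + 1 ≤ k)
      linarith
    have d1 : Dom (U N * U N' * U M) 1 := by
      have := dom_uni (((uni_U N).mul (uni_U N')).mul (uni_U M))
      simpa [map_mul, mass_U] using this
    have d2 : Dom (1 - U k) 2 := by
      have := (dom_uni uni_one).sub (dom_uni (uni_U k))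
      rw [map_one, mass_U] at this
      norm_num at this
      exact this
    apply (d2.mul d1).mono
    have a1 := hlow N h1
    have a2 := hlow N' h2
    nlinarith

lemma dom_key (k N₁ N₂ N₃ : ℕ) :
    Dom ((1 - U k) * (U N₁ * U N₂ * U N₃))
      (8 * (s k N₁ * s k N₂ + s k N₂ * s k N₃ + s k N₁ * s k N₃)) := by
  have p1 := s_nonneg k N₁
  have p2 := s_nonneg k N₂
  have p3 := s_nonneg k N₃
  have q1 := mul_nonneg p1 p2
  have q2 := mul_nonneg p2 p3
  have q3 := mul_nonneg p1 p3
  rcases le_total N₁ N₂ with h12 | h12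
  · rcases le_total N₂ N₃ with h23 | h23
    · apply (dom_key_max k N₁ N₂ N₃ (h12.trans h23) h23).mono
      linarith
    · have := dom_key_max k N₁ N₃ N₂ h12 h23
      have e : U N₁ * U N₂ * U N₃ = U N₁ * U N₃ * U N₂ := by ring
      rw [e]
      apply this.mono
      linarith
  · rcases le_total N₁ N₃ with h13 | h13
    · apply (dom_key_max k N₁ N₂ N₃ h13 (h12.trans h13)).mono
      linarith
    · have := dom_key_max k N₂ N₃ N₁ h12 h13
      have e : U N₁ * U N₂ * U N₃ = U N₂ * U N₃ * U N₁ := by ring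
      rw [e]
      apply this.mono
      linarith

end Pool.Agent.Q280.Ritt
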