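import Pool.Agent.Q280.Ritt.Main

set_option autoImplicit false
set_option linter.unusedSectionVars false

open LaurentPolynomial Finset Filter Topology

namespace Pool.Agent.Q280.Ritt

variable {E : Type} [NormedAddCommGroup E] [NormedSpace ℝ E]

/-- `(ν * f)(k) = ∑_j ν(j) f(k - j)`. -/
noncomputable def conv (ν : ℤ → ℝ) (f : ℤ → E) : ℤ → E := fun k => ∑' j : ℤ, ν j • f (k - j)

/-- the Dirac mass at `0`. -/
def dirac : ℤ → ℝ := fun k => if k = 0 then 1 else 0

/-- convolution power `ν^{*n}`. -/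
noncomputable def cpow (ν : ℤ → ℝ) (n : ℕ) : ℤ → ℝ := (conv ν)^[n] dirac

/-- symmetric probability measure on `ℤ`, non-increasing on `ℕ`. -/
structure SymNoninc (μ : ℤ → ℝ) : Prop where
  nonneg : ∀ k, 0 ≤ μ k
  hasSum : HasSum μ 1
  symm : ∀ k, μ (-k) = μ k
  anti : ∀ n : ℕ, μ ((n:ℤ) + 1) ≤ μ n

lemma conv_apply (ν : ℤ → ℝ) (f : ℤ → E) (k : ℤ) : conv ν f k = ∑' j : ℤ, ν j • f (k - j) := rfl

variable [CompleteSpace E]

lemma summable_smul {a : ℤ → ℝ} (ha : Summable fun j => |a j|) {f : ℤ → E} {B : ℝ}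
    (hf : ∀ x, ‖f x‖ ≤ B) (k : ℤ) : Summable fun j => a j • f (k - j) := by
  apply Summable.of_norm_bounded (ha.mul_right B)
  intro j
  rw [norm_smul, Real.norm_eq_abs]
  exact mul_le_mul_of_nonneg_left (hf _) (abs_nonneg _)

lemma summable_prod_ab {a b : ℤ → ℝ} (ha : Summable fun j => |a j|) (hb : Summable fun j => |b j|) :
    Summable fun p : ℤ × ℤ => |a p.1 * b (p.2 - p.1)| := by
  have h1 : Summable fun p : ℤ × ℤ => |a p.1| * |b p.2| :=
    Summable.mul_of_nonneg ha hb (fun _ => abs_nonneg _) (fun _ => abs_nonneg _)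
  let e : ℤ × ℤ ≃ ℤ × ℤ :=
    { toFun := fun p => (p.1, p.2 - p.1), invFun := fun p => (p.1, p.2 + p.1),
      left_inv := fun p => by simp, right_inv := fun p => by simp }
  have h2 := (e.summable_iff (f := fun p : ℤ × ℤ => |a p.1| * |b p.2|)).mpr h1
  refine h2.congr fun p => ?_
  simp [e, abs_mul]

lemma summable_conv {a b : ℤ → ℝ} (ha : Summable fun j => |a j|) (hb : Summable fun j => |b j|) :
    Summable fun k => |conv a b k| := by
  have h1 := summable_prod_ab ha hb
  have h2 : Summable fun p : ℤ × ℤ => |a p.2 * b (p.1 - p.2)| :=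
    (Equiv.prodComm ℤ ℤ).summable_iff.mpr h1
  have h3 : Summable fun k : ℤ => ∑' j : ℤ, |a j * b (k - j)| := h2.prod
  refine Summable.of_nonneg_of_le (fun k => abs_nonneg _) (fun k => ?_) h3
  have h4 : Summable fun j : ℤ => |a j * b (k - j)| := h2.prod_factor k
  rw [conv_apply]
  have := norm_tsum_le_tsum_norm (f := fun j : ℤ => a j • b (k - j)) (by simpa using h4)
  simpa using this

lemma conv_assoc {a b : ℤ → ℝ} (ha : Summable fun j => |a j|) (hb : Summable fun j => |b j|)
    {f : ℤ → E} {B : ℝ} (hf : ∀ x, ‖f x‖ ≤ B) (k : ℤ) :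
    conv (conv a b) f k = conv a (conv b f) k := by
  have h1 := summable_prod_ab ha hb
  have hB : 0 ≤ B := (norm_nonneg _).trans (hf 0)
  -- family on (i, j): a i * b (j - i) • f (k - j)
  have hs : Summable fun p : ℤ × ℤ => (a p.1 * b (p.2 - p.1)) • f (k - p.2) := by
    apply Summable.of_norm_bounded (h1.mul_right B)
    intro p
    rw [norm_smul, Real.norm_eq_abs]
    exact mul_le_mul_of_nonneg_left (hf _) (abs_nonneg _)
  have hs' : Summable fun p : ℤ × ℤ => (a p.2 * b (p.1 - p.2)) • f (k - p.1) :=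
    (Equiv.prodComm ℤ ℤ).summable_iff.mpr hs
  have e1 : conv (conv a b) f k = ∑' j : ℤ, ∑' i : ℤ, (a i * b (j - i)) • f (k - j) := by
    rw [conv_apply]
    apply tsum_congr
    intro j
    rw [conv_apply]
    have h4 : Summable fun i : ℤ => a i * b (j - i) := by
      have h2 : Summable fun p : ℤ × ℤ => |a p.2 * b (p.1 - p.2)| :=
        (Equiv.prodComm ℤ ℤ).summable_iff.mpr h1
      exact (h2.prod_factor j).of_abs
    simp only [smul_eq_mul]
    rw [← h4.tsum_smul_const]
  have e2 : conv a (conv b f) k = ∑' i : ℤ, ∑' j : ℤ, (a i * b (j - i)) • f (k - j) := by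
    rw [conv_apply]
    apply tsum_congr
    intro i
    rw [conv_apply, ← tsum_const_smul'']
    rw [← (Equiv.subRight i).tsum_eq (fun l => a i • b l • f (k - i - l))]
    apply tsum_congr
    intro j
    simp only [Equiv.subRight_apply, smul_smul]
    congr 2
    ring
  rw [e1, e2]
  exact hs.tsum_comm

lemma dirac_summable : Summable fun j => |dirac j| := by
  apply summable_of_ne_finset_zero (s := {0})
  intro b hb
  have : b ≠ 0 := by simpa using hb
  simp [dirac, this]

lemma conv_dirac (f : ℤ → E) (k : ℤ) : conv dirac f k = f k := by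
  rw [conv_apply, tsum_eq_single 0]
  · simp [dirac]
  · intro j hj
    simp [dirac, hj]

lemma cpow_succ (ν : ℤ → ℝ) (n : ℕ) : cpow ν (n + 1) = conv ν (cpow ν n) := by
  unfold cpow
  rw [Function.iterate_succ_apply']

lemma cpow_summable {ν : ℤ → ℝ} (h : Summable fun j => |ν j|) (n : ℕ) :
    Summable fun j => |cpow ν n j| := by
  induction n with
  | zero => exact dirac_summable
  | succ n ih => rw [cpow_succ]; exact summable_conv h ih

lemma norm_conv_le {a : ℤ → ℝ} (ha : Summable fun j => |a j|) {f : ℤ → E} {B : ℝ}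
    (hf : ∀ x, ‖f x‖ ≤ B) (k : ℤ) : ‖conv a f k‖ ≤ (∑' j, |a j|) * B := by
  rw [conv_apply, ← tsum_mul_right]
  apply tsum_of_norm_bounded (ha.mul_right B).hasSum
  intro j
  rw [norm_smul, Real.norm_eq_abs]
  exact mul_le_mul_of_nonneg_left (hf _) (abs_nonneg _)

lemma conv_iterate_bound {ν : ℤ → ℝ} (h : Summable fun j => |ν j|) {f : ℤ → E} {B : ℝ}
    (hf : ∀ x, ‖f x‖ ≤ B) (n : ℕ) : ∃ B', ∀ x, ‖(conv ν)^[n] f x‖ ≤ B' := by
  induction n with
  | zero => exact ⟨B, hf⟩
  | succ n ih =>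
    obtain ⟨B', hB'⟩ := ih
    refine ⟨(∑' j, |ν j|) * B', fun x => ?_⟩
    rw [Function.iterate_succ_apply']
    exact norm_conv_le h hB' x

lemma conv_cpow {ν : ℤ → ℝ} (h : Summable fun j => |ν j|) {f : ℤ → E} {B : ℝ}
    (hf : ∀ x, ‖f x‖ ≤ B) (n : ℕ) : conv (cpow ν n) f = (conv ν)^[n] f := by
  induction n with
  | zero => funext k; exact conv_dirac f k
  | succ n ih =>
    funext k
    rw [cpow_succ, conv_assoc h (cpow_summable h n) hf, Function.iterate_succ_apply', ih]

lemma conv_sub {μ : ℤ → ℝ} (h : Summable fun j => |μ j|) {f : ℤ → E} {B : ℝ}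
    (hf : ∀ x, ‖f x‖ ≤ B) (k : ℤ) :
    conv (fun j => dirac j - μ j) f k = f k - conv μ f k := by
  rw [conv_apply]
  simp only [sub_smul]
  rw [(summable_smul dirac_summable hf k).tsum_sub (summable_smul h hf k)]
  rw [← conv_apply, ← conv_apply, conv_dirac]

end Pool.Agent.Q280.Ritt
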