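import Pool.Agent.Q280.Ritt.Cone

set_option autoImplicit false

open LaurentPolynomial Finset

namespace Pool.Agent.Q280.Ritt

lemma prod_lower {ι : Type*} (s : Finset ι) (x : ι → ℝ) (hx : ∀ i ∈ s, 0 ≤ x i) :
    1 + ∑ i ∈ s, x i + ((∑ i ∈ s, x i) ^ 2 - ∑ i ∈ s, x i ^ 2) / 2 ≤ ∏ i ∈ s, (1 + x i) ∧
      ∑ i ∈ s, x i ^ 2 ≤ (∑ i ∈ s, x i) ^ 2 := by
  classical
  induction s using Finset.induction_on with
  | empty => simp
  | insert a s ha ih =>
    obtain ⟨h1, h2⟩ := ih fun i hi => hx i (by simp [hi])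
    rw [Finset.sum_insert ha, Finset.sum_insert ha, Finset.prod_insert ha]
    have hxa := hx a (by simp)
    have hS : 0 ≤ ∑ i ∈ s, x i := Finset.sum_nonneg fun i hi => hx i (by simp [hi])
    have h3 := mul_le_mul_of_nonneg_left h1 (by linarith : 0 ≤ 1 + x a)
    constructor
    · nlinarith [mul_nonneg hxa (sub_nonneg.mpr h2)]
    · nlinarith [mul_nonneg hxa hS]

lemma prod_lower' {ι : Type*} (s : Finset ι) (x : ι → ℝ) (hx : ∀ i ∈ s, 0 ≤ x i)
    (hmax : ∀ i ∈ s, x i ≤ (∑ i ∈ s, x i) / 2) :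
    (1 + (∑ i ∈ s, x i) / 2) ^ 2 ≤ ∏ i ∈ s, (1 + x i) := by
  obtain ⟨h1, _⟩ := prod_lower s x hx
  have h2 : ∑ i ∈ s, x i ^ 2 ≤ (∑ i ∈ s, x i) / 2 * ∑ i ∈ s, x i := by
    rw [Finset.mul_sum]
    apply Finset.sum_le_sum
    intro i hi
    rw [sq]
    exact mul_le_mul_of_nonneg_right (hmax i hi) (hx i hi)
  nlinarith

/-- normalised Dirichlet kernel -/
noncomputable def F (k : ℕ) (θ : ℝ) : ℝ :=
  (1 / (2 * (k:ℝ) + 1)) * (1 + 2 * ∑ j ∈ Icc 1 k, Real.cos (j * θ))

lemma dirichlet (k : ℕ) (θ : ℝ) :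
    (1 + 2 * ∑ j ∈ Icc 1 k, Real.cos (j * θ)) * Real.sin (θ / 2) = Real.sin ((k + 1 / 2) * θ) := by
  induction k with
  | zero => simp; congr 1; ring
  | succ k ih =>
    rw [Finset.sum_Icc_succ_top (by omega)]
    have e : Real.sin (((k + 1 : ℕ) + 1 / 2) * θ) - Real.sin ((k + 1 / 2) * θ) =
        2 * Real.cos (((k + 1 : ℕ) : ℝ) * θ) * Real.sin (θ / 2) := by
      have e1 : (((k + 1 : ℕ) : ℝ) + 1 / 2) * θ = ((k + 1 : ℕ) : ℝ) * θ + θ / 2 := by ring
      have e2 : ((k : ℝ) + 1 / 2) * θ = ((k + 1 : ℕ) : ℝ) * θ - θ / 2 := by push_cast; ring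
      rw [e1, e2, Real.sin_add, Real.sin_sub]
      ring
    linarith [ih, e, add_mul (1 + 2 * ∑ j ∈ Icc 1 k, Real.cos (j * θ))
      (2 * Real.cos (((k + 1 : ℕ) : ℝ) * θ)) (Real.sin (θ / 2))]

lemma sum_sq (k : ℕ) : ∑ j ∈ Icc 1 k, ((j:ℝ)) ^ 2 = k * (k + 1) * (2 * k + 1) / 6 := by
  induction k with
  | zero => simp
  | succ k ih =>
    rw [Finset.sum_Icc_succ_top (by omega), ih]
    push_cast; ring

/-- the constant -/
noncomputable def c0 : ℝ := 2 / (3 * Real.pi ^ 2)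

lemma c0_pos : 0 < c0 := by unfold c0; positivity

lemma F_bound (k : ℕ) {θ : ℝ} (h0 : 0 ≤ θ) (hπ : θ ≤ Real.pi) :
    F k θ ^ 2 * (1 + c0 * (k ^ 2 * θ ^ 2)) ≤ 1 := by
  rcases Nat.eq_zero_or_pos k with rfl | hk
  · simp [F]
  have hk1 : (1:ℝ) ≤ k := by exact_mod_cast hk
  have hpi := Real.pi_pos
  have hd : (0:ℝ) < 2 * k + 1 := by positivity
  rcases eq_or_lt_of_le h0 with rfl | h0'
  · have : F k 0 = 1 := by
      unfold F
      simp
      field_simp
      ring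
    rw [this]; simp
  have hsin : 0 < Real.sin (θ / 2) := Real.sin_pos_of_pos_of_lt_pi (by linarith) (by linarith)
  have hF : (2 * (k:ℝ) + 1) * F k θ * Real.sin (θ / 2) = Real.sin ((k + 1 / 2) * θ) := by
    rw [← dirichlet]
    unfold F
    rw [← mul_assoc (2 * (k:ℝ) + 1), mul_one_div_cancel hd.ne', one_mul]
  rcases le_or_gt ((k:ℝ) * θ) Real.pi with hc | hc
  · -- small angle
    have hub : F k θ ≤ 1 - c0 * (k ^ 2 * θ ^ 2) := by
      have h1 : ∑ j ∈ Icc 1 k, Real.cos (j * θ) ≤ ∑ j ∈ Icc 1 k, (1 - 2 / Real.pi ^ 2 * (j * θ) ^ 2) := by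
        apply Finset.sum_le_sum
        intro j hj
        have hj2 : (j:ℝ) ≤ k := by exact_mod_cast (Finset.mem_Icc.mp hj).2
        apply Real.cos_le_one_sub_mul_cos_sq
        rw [abs_of_nonneg (by positivity)]
        exact (mul_le_mul_of_nonneg_right hj2 h0).trans hc
      have h2 : ∑ j ∈ Icc 1 k, (1 - 2 / Real.pi ^ 2 * ((j:ℝ) * θ) ^ 2) =
          k - 2 / Real.pi ^ 2 * θ ^ 2 * (k * (k + 1) * (2 * k + 1) / 6) := by
        rw [Finset.sum_sub_distrib, ← sum_sq, Finset.mul_sum]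
        congr 1
        · simp
        · apply Finset.sum_congr rfl
          intro j _; ring
      rw [h2] at h1
      unfold F
      rw [one_div, inv_mul_le_iff₀ hd]
      have h3 : 1 + 2 * ∑ j ∈ Icc 1 k, Real.cos (j * θ) ≤
          (2 * k + 1) * (1 - 2 / (3 * Real.pi ^ 2) * (k * (k + 1)) * θ ^ 2) := by
        have e : (2 * (k:ℝ) + 1) * (1 - 2 / (3 * Real.pi ^ 2) * (k * (k + 1)) * θ ^ 2) =
          1 + 2 * (k - 2 / Real.pi ^ 2 * θ ^ 2 * (k * (k + 1) * (2 * k + 1) / 6)) := by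
          field_simp
          ring
        rw [e]; linarith
      apply h3.trans
      apply mul_le_mul_of_nonneg_left _ hd.le
      unfold c0
      have h4 : 0 < 2 / (3 * Real.pi ^ 2) := by positivity
      have h5 : 2 / (3 * Real.pi ^ 2) * (k ^ 2 * θ ^ 2) ≤ 2 / (3 * Real.pi ^ 2) * (k * (k + 1)) * θ ^ 2 := by
        rw [mul_assoc]
        apply mul_le_mul_of_nonneg_left _ h4.le
        apply mul_le_mul_of_nonneg_right _ (sq_nonneg θ)
        nlinarith
      linarith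
    have hlb : -(1/3) ≤ F k θ := by
      have h1 : 0 ≤ Real.sin ((k + 1 / 2) * θ) + Real.sin (θ / 2) := by
        have e : Real.sin ((k + 1 / 2) * θ) + Real.sin (θ / 2) =
            2 * (Real.sin ((k + 1) * θ / 2) * Real.cos (k * θ / 2)) := by
          have e1 : ((k:ℝ) + 1 / 2) * θ = (k + 1) * θ / 2 + k * θ / 2 := by ring
          have e2 : θ / 2 = (k + 1) * θ / 2 - k * θ / 2 := by ring
          rw [e1]
          conv_lhs => rw [e2]
          have e3 : ((k:ℝ) + 1) * ((k + 1) * θ / 2 - k * θ / 2) + 0 = (k + 1) * θ / 2 := by ring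
          rw [Real.sin_sub, Real.sin_add]
          ring
        rw [e]
        have s1 : 0 ≤ Real.sin ((k + 1) * θ / 2) := by
          apply Real.sin_nonneg_of_nonneg_of_le_pi (by positivity)
          nlinarith
        have s2 : 0 ≤ Real.cos (k * θ / 2) := by
          apply Real.cos_nonneg_of_neg_pi_div_two_le_of_le
          · have : 0 ≤ (k:ℝ) * θ / 2 := by positivity
            linarith
          · linarith
        positivity
      rw [← hF] at h1
      have h2 : 0 ≤ ((2 * (k:ℝ) + 1) * F k θ + 1) * Real.sin (θ / 2) := by linarith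
      have h3 : 0 ≤ (2 * (k:ℝ) + 1) * F k θ + 1 := by
        by_contra hneg
        push Not at hneg
        nlinarith
      by_contra hneg
      push Not at hneg
      nlinarith
    have hu : c0 * (k ^ 2 * θ ^ 2) ≤ 2 / 3 := by
      unfold c0
      have : (k:ℝ) ^ 2 * θ ^ 2 ≤ Real.pi ^ 2 := by
        rw [← mul_pow]
        exact pow_le_pow_left₀ (by positivity) hc 2
      rw [div_mul_eq_mul_div, div_le_div_iff₀ (by positivity) (by norm_num)]
      nlinarith
    have hu0 : 0 ≤ c0 * (k ^ 2 * θ ^ 2) := by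
      have := c0_pos
      positivity
    set u := c0 * (k ^ 2 * θ ^ 2) with hudef
    rcases le_or_gt 0 (F k θ) with hp | hn
    · have h1 : F k θ ^ 2 ≤ (1 - u) ^ 2 := pow_le_pow_left₀ hp hub 2
      have h2 : (1 - u) ^ 2 * (1 + u) ≤ 1 := by nlinarith [mul_nonneg hu0 hu0]
      exact (mul_le_mul_of_nonneg_right h1 (by linarith)).trans h2
    · have h1 : F k θ ^ 2 ≤ (1/3) ^ 2 := by nlinarith
      nlinarith
  · have h1 : θ / Real.pi ≤ Real.sin (θ / 2) := by
      have := Real.mul_le_sin (x := θ / 2) (by linarith) (by linarith)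
      calc θ / Real.pi = 2 / Real.pi * (θ / 2) := by ring
        _ ≤ _ := this
    have h2 : |F k θ| * ((2 * (k:ℝ) + 1) * Real.sin (θ / 2)) ≤ 1 := by
      have := Real.abs_sin_le_one ((k + 1 / 2) * θ)
      rw [← hF, abs_mul, abs_mul, abs_of_pos hd, abs_of_pos hsin] at this
      linarith
    have h3 : |F k θ| * (2 * (k * θ)) ≤ Real.pi := by
      have h4 : 2 * (k:ℝ) * (θ / Real.pi) ≤ (2 * (k:ℝ) + 1) * Real.sin (θ / 2) := by
        apply mul_le_mul (by linarith) h1 (by positivity) (by positivity)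
      have h5 := mul_le_mul_of_nonneg_left h4 (abs_nonneg (F k θ))
      have h6 : |F k θ| * (2 * (k:ℝ) * (θ / Real.pi)) ≤ 1 := h5.trans h2
      have h7 : |F k θ| * (2 * (k:ℝ) * (θ / Real.pi)) = (|F k θ| * (2 * (k * θ))) / Real.pi := by ring
      rw [h7, div_le_one hpi] at h6
      exact h6
    have h4 : F k θ ^ 2 * (4 * (k ^ 2 * θ ^ 2)) ≤ Real.pi ^ 2 := by
      have := pow_le_pow_left₀ (by positivity) h3 2
      calc F k θ ^ 2 * (4 * (k ^ 2 * θ ^ 2)) = (|F k θ| * (2 * (k * θ))) ^ 2 := by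
            rw [mul_pow, sq_abs]; ring
        _ ≤ _ := this
    have h5 : Real.pi ^ 2 ≤ (k:ℝ) ^ 2 * θ ^ 2 := by
      rw [← mul_pow]
      exact pow_le_pow_left₀ hpi.le hc.le 2
    have h6 : F k θ ^ 2 * (4 * Real.pi ^ 2) ≤ Real.pi ^ 2 := by
      refine le_trans ?_ h4
      apply mul_le_mul_of_nonneg_left _ (sq_nonneg _)
      linarith
    have hpi2 : 0 < Real.pi ^ 2 := by positivity
    have h7 : F k θ ^ 2 ≤ 1 / 4 := by
      by_contra hneg
      push Not at hneg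
      nlinarith
    have h8 : F k θ ^ 2 * (c0 * (k ^ 2 * θ ^ 2)) ≤ 1 / 6 := by
      have e : F k θ ^ 2 * (c0 * (k ^ 2 * θ ^ 2)) =
          (F k θ ^ 2 * (4 * (k ^ 2 * θ ^ 2))) / (6 * Real.pi ^ 2) := by
        unfold c0
        field_simp
        ring
      rw [e, div_le_div_iff₀ (by positivity) (by norm_num)]
      linarith
    linarith

/-- the value of a Laurent polynomial at `exp(iθ)`. -/
noncomputable def ev (θ : ℝ) : L →+* ℂ :=
  LaurentPolynomial.eval₂ (algebraMap ℝ ℂ)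
    (Units.mk0 (Complex.exp (θ * Complex.I)) (Complex.exp_ne_zero _))

lemma ev_T (θ : ℝ) (j : ℤ) : ev θ (T j) = Complex.exp (j * θ * Complex.I) := by
  unfold ev
  rw [eval₂_T]
  simp only [Units.val_zpow_eq_zpow_val, Units.val_mk0]
  rw [← Complex.exp_int_mul]
  congr 1; ring

lemma ev_smul (θ : ℝ) (a : ℝ) (P : L) : ev θ (a • P) = (a : ℂ) * ev θ P := by
  rw [smul_eq_C_mul, map_mul]
  unfold ev
  rw [eval₂_C]; simp

lemma L_eq_sum (P : L) : P = ∑ j ∈ P.coeff.support, P.coeff j • (T j : L) := by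
  ext x
  rw [coeff_sum']
  simp only [AddMonoidAlgebra.coeff_smul_apply, T_apply, smul_eq_mul, mul_ite, mul_one, mul_zero]
  rw [Finset.sum_ite_eq']
  split_ifs with h
  · rfl
  · exact Finsupp.notMem_support_iff.mp h

lemma ev_continuous (P : L) : Continuous fun θ => ev θ P := by
  rw [L_eq_sum P]
  simp only [map_sum, ev_smul, ev_T]
  fun_prop

lemma integral_exp_int (j : ℤ) : ∫ θ in (-Real.pi)..Real.pi, Complex.exp (j * θ * Complex.I) =
    if j = 0 then (2 * Real.pi : ℂ) else 0 := by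
  split_ifs with h
  · subst h
    simp
    ring
  · have hj : (j : ℂ) * Complex.I ≠ 0 := mul_ne_zero (by exact_mod_cast h) Complex.I_ne_zero
    have e : ∀ θ : ℝ, Complex.exp (j * θ * Complex.I) = Complex.exp ((j * Complex.I) * θ) := by
      intro θ; congr 1; ring
    simp only [e]
    rw [integral_exp_mul_complex hj]
    have : Complex.exp (j * Complex.I * (Real.pi : ℝ)) = Complex.exp (j * Complex.I * ((-Real.pi : ℝ) : ℂ)) := by
      rw [Complex.exp_eq_exp_iff_exists_int]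
      refine ⟨j, ?_⟩
      push_cast
      ring
    rw [this, sub_self, zero_div]

lemma integral_ev (P : L) : ∫ θ in (-Real.pi)..Real.pi, ev θ P = 2 * Real.pi * (P.coeff 0 : ℂ) := by
  conv_lhs => rw [L_eq_sum P]
  simp only [map_sum, ev_smul, ev_T]
  rw [intervalIntegral.integral_finsetSum]
  · simp only [intervalIntegral.integral_const_mul, integral_exp_int, mul_ite, mul_zero]
    rw [Finset.sum_ite_eq']
    split_ifs with h
    · ring
    · rw [Finsupp.notMem_support_iff.mp h]; simp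
  · intro j _
    apply Continuous.intervalIntegrable
    fun_prop

lemma D_eq (k : ℕ) : (D k : L) = 1 + ∑ j ∈ Icc 1 k, (T (j:ℤ) + T (-(j:ℤ))) := by
  induction k with
  | zero => simp [D]
  | succ k ih =>
    rw [Finset.sum_Icc_succ_top (by omega), ← add_assoc, ← ih]
    ext x
    rw [AddMonoidAlgebra.coeff_add, AddMonoidAlgebra.coeff_add, Finsupp.add_apply,
      Finsupp.add_apply, coeff_D, coeff_D, T_apply, T_apply]
    simp only [abs_le]
    push_cast
    split_ifs <;> first | (exfalso; omega) | norm_num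

lemma ev_U (k : ℕ) (θ : ℝ) : ev θ (U k) = (F k θ : ℂ) := by
  unfold U F
  rw [ev_smul, D_eq, map_add, map_one, map_sum]
  push_cast
  congr 1
  rw [Finset.mul_sum]
  congr 1
  apply Finset.sum_congr rfl
  intro j _
  rw [map_add, ev_T, ev_T, Complex.cos]
  push_cast
  have : -(j:ℂ) * θ * Complex.I = -(j * θ) * Complex.I := by ring
  rw [this]
  ring

lemma F_neg (k : ℕ) (θ : ℝ) : F k (-θ) = F k θ := by
  unfold F
  congr 3
  apply Finset.sum_congr rfl
  intro j _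
  rw [mul_neg, Real.cos_neg]

lemma F_bound' (k : ℕ) {θ : ℝ} (hπ : |θ| ≤ Real.pi) :
    F k θ ^ 2 * (1 + c0 * (k ^ 2 * θ ^ 2)) ≤ 1 := by
  rcases le_total 0 θ with h | h
  · exact F_bound k h (le_of_abs_le hπ)
  · have := F_bound k (neg_nonneg.mpr h) (by rw [abs_of_nonpos h] at hπ; exact hπ)
    rwa [F_neg, neg_sq] at this

lemma coeff_prod_U_le {ι : Type*} (s : Finset ι) (k : ι → ℕ) :
    Op (∏ i ∈ s, U (k i)) 1 := by
  classical
  induction s using Finset.induction_on with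
  | empty => simpa using op_one
  | insert a s ha ih =>
    rw [Finset.prod_insert ha]
    simpa using op_mul (op_U (k a)) ih

lemma prod_F_bound {ι : Type*} (s : Finset ι) (k : ι → ℕ) {θ : ℝ} (hπ : |θ| ≤ Real.pi)
    (hmax : ∀ i ∈ s, ((k i : ℝ)) ^ 2 ≤ (∑ i ∈ s, ((k i : ℝ)) ^ 2) / 2) :
    |∏ i ∈ s, F (k i) θ| ≤ 1 / (1 + (c0 * (∑ i ∈ s, ((k i : ℝ)) ^ 2) / 2) * θ ^ 2) := by
  have hc := c0_pos
  set Q := ∑ i ∈ s, ((k i : ℝ)) ^ 2 with hQ
  have hQ0 : 0 ≤ Q := Finset.sum_nonneg fun i _ => sq_nonneg _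
  have hX : ∑ i ∈ s, c0 * ((k i : ℝ) ^ 2 * θ ^ 2) = c0 * Q * θ ^ 2 := by
    rw [hQ, Finset.mul_sum, Finset.sum_mul]
    apply Finset.sum_congr rfl
    intro i _; ring
  have h1 := prod_lower' s (fun i => c0 * ((k i : ℝ) ^ 2 * θ ^ 2))
    (fun i _ => by positivity) (fun i hi => by
      rw [hX]
      have := hmax i hi
      have h2 : (k i : ℝ) ^ 2 * (c0 * θ ^ 2) ≤ Q / 2 * (c0 * θ ^ 2) :=
        mul_le_mul_of_nonneg_right this (by positivity)
      linarith)
  rw [hX] at h1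
  have h2 : (∏ i ∈ s, F (k i) θ) ^ 2 * ∏ i ∈ s, (1 + c0 * ((k i : ℝ) ^ 2 * θ ^ 2)) ≤ 1 := by
    rw [← Finset.prod_pow, ← Finset.prod_mul_distrib]
    apply Finset.prod_le_one
    · intro i _
      positivity
    · intro i _
      exact F_bound' (k i) hπ
  have hy : 0 < 1 + c0 * Q * θ ^ 2 / 2 := by positivity
  have h3 : (∏ i ∈ s, F (k i) θ) ^ 2 * (1 + c0 * Q * θ ^ 2 / 2) ^ 2 ≤ 1 :=
    (mul_le_mul_of_nonneg_left h1 (sq_nonneg _)).trans h2
  rw [← mul_pow] at h3
  have h4 : |(∏ i ∈ s, F (k i) θ) * (1 + c0 * Q * θ ^ 2 / 2)| ≤ 1 := by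
    rw [← sq_abs] at h3
    have := abs_le_of_sq_le_sq' (by simpa using h3 : |(∏ i ∈ s, F (k i) θ) * (1 + c0 * Q * θ ^ 2 / 2)| ^ 2 ≤ 1 ^ 2) zero_le_one
    exact this.2
  rw [abs_mul, abs_of_pos hy] at h4
  rw [show 1 + c0 * Q / 2 * θ ^ 2 = 1 + c0 * Q * θ ^ 2 / 2 by ring, le_div_iff₀ hy]
  exact h4

lemma coeff_zero_bound {ι : Type*} (s : Finset ι) (k : ι → ℕ) :
    ((∏ i ∈ s, U (k i)).coeff 0) ^ 2 * ∑ i ∈ s, ((k i : ℝ)) ^ 2 ≤ 8 := by
  classical
  set Q := ∑ i ∈ s, ((k i : ℝ)) ^ 2 with hQ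
  have hQ0 : 0 ≤ Q := Finset.sum_nonneg fun i _ => sq_nonneg _
  by_cases hmax : ∀ i ∈ s, ((k i : ℝ)) ^ 2 ≤ Q / 2
  · rcases eq_or_lt_of_le hQ0 with h0 | hpos
    · rw [← h0]; norm_num
    have hc := c0_pos
    set β := Real.sqrt (c0 * Q / 2) with hβ
    have hβ2 : β ^ 2 = c0 * Q / 2 := Real.sq_sqrt (by positivity)
    have hβpos : 0 < β := Real.sqrt_pos.mpr (by positivity)
    have hint : ‖∫ θ in (-Real.pi)..Real.pi, ev θ (∏ i ∈ s, U (k i))‖ ≤
        ∫ θ in (-Real.pi)..Real.pi, 1 / (1 + (β * θ) ^ 2) := by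
      apply intervalIntegral.norm_integral_le_of_norm_le (by linarith [Real.pi_pos])
      · filter_upwards with θ hθ
        have hθ' : |θ| ≤ Real.pi := by
          rw [abs_le]; exact ⟨hθ.1.le, hθ.2⟩
        rw [map_prod]
        simp only [ev_U]
        rw [← Complex.ofReal_prod, Complex.norm_real, Real.norm_eq_abs, mul_pow, hβ2]
        exact prod_F_bound s k hθ' hmax
      · apply Continuous.intervalIntegrable
        apply Continuous.div continuous_const (by fun_prop)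
        intro x
        positivity
    have hval : ∫ θ in (-Real.pi)..Real.pi, 1 / (1 + (β * θ) ^ 2) ≤ Real.pi / β := by
      have := intervalIntegral.integral_comp_mul_left (a := -Real.pi) (b := Real.pi)
        (fun x : ℝ => 1 / (1 + x ^ 2)) hβpos.ne'
      rw [this, integral_one_div_one_add_sq, smul_eq_mul]
      have h1 := Real.arctan_lt_pi_div_two (β * Real.pi)
      have h2 := Real.neg_pi_div_two_lt_arctan (β * -Real.pi)
      rw [div_eq_inv_mul]
      apply mul_le_mul_of_nonneg_left _ (inv_nonneg.mpr hβpos.le)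
      linarith
    rw [integral_ev] at hint
    have h3 : 2 * Real.pi * |(∏ i ∈ s, U (k i)).coeff 0| ≤ Real.pi / β := by
      refine le_trans (le_of_eq ?_) (hint.trans hval)
      rw [norm_mul, norm_mul, Complex.norm_real, Complex.norm_real, Complex.norm_ofNat,
        Real.norm_eq_abs, Real.norm_eq_abs, abs_of_pos Real.pi_pos]
    have h4 : |(∏ i ∈ s, U (k i)).coeff 0| * (2 * β) ≤ 1 := by
      rw [le_div_iff₀ hβpos] at h3
      have hpi := Real.pi_pos
      have : Real.pi * (|(∏ i ∈ s, U (k i)).coeff 0| * (2 * β)) ≤ Real.pi * 1 := by linarith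
      exact le_of_mul_le_mul_left this hpi
    have h5 : ((∏ i ∈ s, U (k i)).coeff 0) ^ 2 * (4 * β ^ 2) ≤ 1 := by
      have := pow_le_pow_left₀ (by positivity) h4 2
      rw [mul_pow, sq_abs, one_pow] at this
      linarith
    rw [hβ2] at h5
    unfold c0 at h5
    have hpi3 : Real.pi ^ 2 < 10 := by
      have := Real.pi_lt_d2
      have := Real.pi_pos
      nlinarith
    have h6 : ((∏ i ∈ s, U (k i)).coeff 0) ^ 2 * Q * (4 / (3 * Real.pi ^ 2)) ≤ 1 := by
      calc ((∏ i ∈ s, U (k i)).coeff 0) ^ 2 * Q * (4 / (3 * Real.pi ^ 2))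
          = ((∏ i ∈ s, U (k i)).coeff 0) ^ 2 * (4 * (2 / (3 * Real.pi ^ 2) * Q / 2)) := by ring
        _ ≤ 1 := h5
    have hpp : 0 < 3 * Real.pi ^ 2 := by positivity
    rw [mul_div_assoc', div_le_one hpp] at h6
    linarith
  · push Not at hmax
    obtain ⟨j, hj, hjQ⟩ := hmax
    have h1 : |(∏ i ∈ s, U (k i)).coeff 0| ≤ 1 / (2 * (k j : ℝ) + 1) := by
      rw [← Finset.mul_prod_erase s _ hj, mul_comm]
      have := coeff_prod_U_le (s.erase j) k (U (k j)) _ (coeff_U_le (k j)) 0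
      rwa [one_mul] at this
    have h2 : |(∏ i ∈ s, U (k i)).coeff 0| * (2 * (k j : ℝ) + 1) ≤ 1 := by
      rwa [le_div_iff₀ (two_N_pos (k j))] at h1
    have h3 : ((∏ i ∈ s, U (k i)).coeff 0) ^ 2 * (2 * (k j : ℝ) + 1) ^ 2 ≤ 1 := by
      have := pow_le_pow_left₀ (by positivity) h2 2
      rwa [mul_pow, sq_abs, one_pow] at this
    have h4 : Q ≤ 2 * (2 * (k j : ℝ) + 1) ^ 2 := by nlinarith [Nat.cast_nonneg (α := ℝ) (k j)]
    have h5 := mul_le_mul_of_nonneg_left h4 (sq_nonneg ((∏ i ∈ s, U (k i)).coeff 0))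
    linarith

end Pool.Agent.Q280.Ritt
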