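import Pool.Agent.Q280.Ritt.Fourier

set_option autoImplicit false

open LaurentPolynomial Finset

namespace Pool.Agent.Q280.Ritt

/-- weight of `U r` in the representation of a symmetric non-increasing kernel. -/
noncomputable def wt (P : L) (r : ℕ) : ℝ := (2 * (r:ℝ) + 1) * (P.coeff r - P.coeff ((r:ℤ) + 1))

lemma wt_nonneg {P : L} (h : Uni P) (r : ℕ) : 0 ≤ wt P r :=
  mul_nonneg (two_N_pos r).le (by linarith [h.anti r])

lemma wt_sum {ι : Type*} (s : Finset ι) (a : ι → ℝ) (f : ι → L) (r : ℕ) :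
    wt (∑ i ∈ s, a i • f i) r = ∑ i ∈ s, a i * wt (f i) r := by
  unfold wt
  rw [coeff_sum', coeff_sum', ← Finset.sum_sub_distrib, Finset.mul_sum]
  apply Finset.sum_congr rfl
  intro i _
  simp only [AddMonoidAlgebra.coeff_smul_apply, smul_eq_mul]
  ring

lemma repr' {P : L} (h : Uni P) {R : ℕ} (hR : ∀ y : ℤ, R ≤ y.natAbs → P.coeff y = 0) :
    P = ∑ r ∈ range R, wt P r • U r := by
  conv_lhs => rw [uni_repr h hR]
  apply Finset.sum_congr rfl
  intro r _
  unfold wt U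
  rw [smul_smul]
  congr 1
  have := (two_N_pos r).ne'
  field_simp

lemma wt_total {P : L} (h : Uni P) {R : ℕ} (hR : ∀ y : ℤ, R ≤ y.natAbs → P.coeff y = 0) :
    ∑ r ∈ range R, wt P r = mass P := by
  conv_rhs => rw [repr' h hR, map_sum]
  apply Finset.sum_congr rfl
  intro r _
  rw [mass_smul, mass_U, mul_one]

/-- the average smoothing factor -/
noncomputable def G (R k : ℕ) (P : L) : ℝ := ∑ r ∈ range R, wt P r * s k r

lemma G_le {P : L} (h : Uni P) (hm : mass P = 1) {R : ℕ}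
    (hR : ∀ y : ℤ, R ≤ y.natAbs → P.coeff y = 0) (k : ℕ) :
    G R k P ≤ min 1 (k * P.coeff 0) := by
  apply le_min
  · rw [← hm, ← wt_total h hR]
    apply Finset.sum_le_sum
    intro r _
    have := mul_le_mul_of_nonneg_left (s_le_one k r) (wt_nonneg h r)
    linarith
  · have h1 : G R k P ≤ ∑ r ∈ range R, k * (P.coeff (r:ℕ) - P.coeff ((r + 1 : ℕ) : ℤ)) := by
      apply Finset.sum_le_sum
      intro r _
      have h2 : s k r ≤ (k:ℝ) / (2 * r + 1) := min_le_right _ _
      have := mul_le_mul_of_nonneg_left h2 (wt_nonneg h r)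
      refine this.trans (le_of_eq ?_)
      unfold wt
      have := (two_N_pos r).ne'
      push_cast
      field_simp
    rw [← Finset.mul_sum, Finset.sum_range_sub'] at h1
    refine h1.trans ?_
    apply mul_le_mul_of_nonneg_left _ (Nat.cast_nonneg k)
    have := h.nonneg (R:ℤ)
    simp only [Nat.cast_zero]
    linarith

lemma dom_k (k : ℕ) (R : ℕ) (q : ℕ → ℝ) (hq : ∀ r, 0 ≤ q r) (hs : ∑ r ∈ range R, q r = 1) :
    Dom ((1 - U k) * ((∑ r ∈ range R, q r • U r) * (∑ r ∈ range R, q r • U r) *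
      (∑ r ∈ range R, q r • U r))) (24 * (∑ r ∈ range R, q r * s k r) ^ 2) := by
  have e : (1 - U k) * ((∑ r ∈ range R, q r • U r) * (∑ r ∈ range R, q r • U r) *
      (∑ r ∈ range R, q r • U r)) = ∑ c ∈ range R, ∑ a ∈ range R, ∑ b ∈ range R,
        (q a * q b * q c) • ((1 - U k) * (U a * U b * U c)) := by
    rw [Finset.sum_mul_sum, Finset.mul_sum, Finset.mul_sum]
    apply Finset.sum_congr rfl
    intro c _
    rw [Finset.sum_mul, Finset.mul_sum]
    apply Finset.sum_congr rfl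
    intro a _
    rw [Finset.sum_mul, Finset.mul_sum]
    apply Finset.sum_congr rfl
    intro b _
    simp only [smul_mul_assoc, mul_smul_comm, smul_smul]
    congr 1; ring
  rw [e]
  have h := Dom.sum (range R) (fun c => ∑ a ∈ range R, ∑ b ∈ range R,
        (q a * q b * q c) • ((1 - U k) * (U a * U b * U c))) _ (fun c _ =>
    Dom.sum (range R) (fun a => ∑ b ∈ range R,
        (q a * q b * q c) • ((1 - U k) * (U a * U b * U c))) _ (fun a _ =>
      Dom.sum (range R) (fun b =>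
        (q a * q b * q c) • ((1 - U k) * (U a * U b * U c))) _ (fun b _ =>
          (dom_key k a b c).smul (q a * q b * q c))))
  apply h.mono
  apply le_of_eq
  set g := ∑ r ∈ range R, q r * s k r with hg
  have e1 : ∀ a b c : ℕ, |q a * q b * q c| = q a * q b * q c := fun a b c =>
    abs_of_nonneg (mul_nonneg (mul_nonneg (hq a) (hq b)) (hq c))
  have e2 : ∀ a c : ℕ, ∑ b ∈ range R, |q a * q b * q c| *
      (8 * (s k a * s k b + s k b * s k c + s k a * s k c)) =
      8 * ((q a * s k a) * q c * g + q a * (q c * s k c) * g + (q a * s k a) * (q c * s k c)) := by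
    intro a c
    have : ∀ b ∈ range R, |q a * q b * q c| *
      (8 * (s k a * s k b + s k b * s k c + s k a * s k c)) =
      8 * (((q a * s k a) * q c) * (q b * s k b)) + 8 * ((q a * (q c * s k c)) * (q b * s k b)) +
        8 * (((q a * s k a) * (q c * s k c)) * q b) := by
      intro b _
      rw [e1]; ring
    rw [Finset.sum_congr rfl this, Finset.sum_add_distrib, Finset.sum_add_distrib]
    simp only [← Finset.mul_sum]
    rw [← hg, hs]
    ring
  have e3 : ∀ c : ℕ, ∑ a ∈ range R, ∑ b ∈ range R, |q a * q b * q c| *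
      (8 * (s k a * s k b + s k b * s k c + s k a * s k c)) =
      8 * (q c * (g * g) + 2 * ((q c * s k c) * g)) := by
    intro c
    simp only [e2]
    have : ∀ a ∈ range R, 8 * ((q a * s k a) * q c * g + q a * (q c * s k c) * g +
        (q a * s k a) * (q c * s k c)) = 8 * ((q c * g) * (q a * s k a)) +
        8 * (((q c * s k c) * g) * q a) + 8 * ((q c * s k c) * (q a * s k a)) := by
      intro a _; ring
    rw [Finset.sum_congr rfl this, Finset.sum_add_distrib, Finset.sum_add_distrib]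
    simp only [← Finset.mul_sum]
    rw [← hg, hs]
    ring
  simp only [e3]
  have : ∀ c ∈ range R, 8 * (q c * (g * g) + 2 * ((q c * s k c) * g)) =
      8 * ((g * g) * q c) + 8 * ((2 * g) * (q c * s k c)) := by
    intro c _; ring
  rw [Finset.sum_congr rfl this, Finset.sum_add_distrib]
  simp only [← Finset.mul_sum]
  rw [← hg, hs]
  ring

/-- exchangeability -/
lemma exch (n R : ℕ) (w : Fin R → ℝ) (hw : ∀ i, 0 ≤ w i) (hs : ∑ i, w i = 1) :
    ∑ k : Fin R, w k * ∑ p : Fin n → Fin R, (∏ j, w (p j)) *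
      (((k:ℕ):ℝ) ^ 2 / (((k:ℕ):ℝ) ^ 2 + ∑ j, (((p j : Fin R) : ℕ) : ℝ) ^ 2)) ≤ 1 / (n + 1) := by
  set S : (Fin (n + 1) → Fin R) → ℝ := fun P => ∑ j, (((P j : Fin R) : ℕ) : ℝ) ^ 2 with hS
  set W : (Fin (n + 1) → Fin R) → ℝ := fun P => ∏ j, w (P j) with hW
  have h1 : ∑ k : Fin R, w k * ∑ p : Fin n → Fin R, (∏ j, w (p j)) *
      (((k:ℕ):ℝ) ^ 2 / (((k:ℕ):ℝ) ^ 2 + ∑ j, (((p j : Fin R) : ℕ) : ℝ) ^ 2)) =
      ∑ P : Fin (n + 1) → Fin R, W P * ((((P 0 : Fin R) : ℕ) : ℝ) ^ 2 / S P) := by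
    rw [← (Fin.consEquiv (fun _ : Fin (n + 1) => Fin R)).sum_comp, Fintype.sum_prod_type]
    apply Finset.sum_congr rfl
    intro k _
    rw [Finset.mul_sum]
    apply Finset.sum_congr rfl
    intro p _
    simp only [hW, hS, Fin.consEquiv_apply, Fin.prod_univ_succ, Fin.sum_univ_succ, Fin.cons_zero,
      Fin.cons_succ]
    ring
  have h2 : ∀ i : Fin (n + 1), ∑ P : Fin (n + 1) → Fin R, W P * ((((P i : Fin R) : ℕ) : ℝ) ^ 2 / S P) =
      ∑ P : Fin (n + 1) → Fin R, W P * ((((P 0 : Fin R) : ℕ) : ℝ) ^ 2 / S P) := by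
    intro i
    rw [← (Equiv.arrowCongr (Equiv.swap 0 i) (Equiv.refl (Fin R))).sum_comp]
    apply Finset.sum_congr rfl
    intro P _
    have a1 : W ((Equiv.arrowCongr (Equiv.swap 0 i) (Equiv.refl (Fin R))) P) = W P := by
      simp only [hW, Equiv.arrowCongr_apply, Equiv.coe_refl, Function.comp, id, Equiv.symm_swap]
      exact Equiv.prod_comp (Equiv.swap 0 i) (fun j => w (P j))
    have a2 : S ((Equiv.arrowCongr (Equiv.swap 0 i) (Equiv.refl (Fin R))) P) = S P := by
      simp only [hS, Equiv.arrowCongr_apply, Equiv.coe_refl, Function.comp, id, Equiv.symm_swap]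
      exact Equiv.sum_comp (Equiv.swap 0 i) (fun j => (((P j : Fin R) : ℕ) : ℝ) ^ 2)
    rw [a1, a2]
    simp [Equiv.arrowCongr_apply]
  have h3 : ((n:ℝ) + 1) * ∑ P : Fin (n + 1) → Fin R, W P * ((((P 0 : Fin R) : ℕ) : ℝ) ^ 2 / S P) ≤ 1 := by
    have : ((n:ℝ) + 1) * ∑ P : Fin (n + 1) → Fin R, W P * ((((P 0 : Fin R) : ℕ) : ℝ) ^ 2 / S P) =
        ∑ i : Fin (n + 1), ∑ P : Fin (n + 1) → Fin R, W P * ((((P i : Fin R) : ℕ) : ℝ) ^ 2 / S P) := by
      simp only [h2, sum_const, card_univ, Fintype.card_fin, nsmul_eq_mul]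
      push_cast; ring
    rw [this, Finset.sum_comm]
    have h4 : ∑ P : Fin (n + 1) → Fin R, W P = 1 := by
      have := Fintype.sum_pow w (n + 1)
      rw [hs, one_pow] at this
      exact this.symm
    rw [← h4]
    apply Finset.sum_le_sum
    intro P _
    rw [← Finset.mul_sum, ← Finset.sum_div]
    have hWP : 0 ≤ W P := Finset.prod_nonneg fun j _ => hw _
    have : (∑ i, (((P i : Fin R) : ℕ) : ℝ) ^ 2) / S P ≤ 1 := div_self_le_one _
    calc _ ≤ W P * 1 := mul_le_mul_of_nonneg_left this hWP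
      _ = _ := mul_one _
  rw [h1, le_div_iff₀ (by positivity)]
  linarith

/-- the main estimate for finitely supported kernels. -/
theorem main_finite {μ : L} (h : Uni μ) (hm : mass μ = 1) (n : ℕ) :
    Dom ((1 - μ) * (μ ^ n * μ ^ n * μ ^ n)) (216 / (n + 1)) := by
  classical
  obtain ⟨R, hR⟩ := exists_supp μ
  set w : Fin R → ℝ := fun r => wt μ r with hw
  have hw0 : ∀ i, 0 ≤ w i := fun i => wt_nonneg h i
  have hμ : μ = ∑ r : Fin R, w r • U r := by
    conv_lhs => rw [repr' h hR]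
    rw [Finset.sum_range]
  have hws : ∑ r : Fin R, w r = 1 := by
    rw [← hm, ← wt_total h hR, Finset.sum_range]
  set V : (Fin n → Fin R) → L := fun p => ∏ j, U (p j) with hV
  set W : (Fin n → Fin R) → ℝ := fun p => ∏ j, w (p j) with hW
  have hW0 : ∀ p, 0 ≤ W p := fun p => Finset.prod_nonneg fun j _ => hw0 _
  have hWs : ∑ p, W p = 1 := by
    have := Fintype.sum_pow w n
    rw [hws, one_pow] at this
    exact this.symm
  have hVu : ∀ p, Uni (V p) := fun p => Uni.prod _ _ fun j _ => uni_U _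
  have hVm : ∀ p, mass (V p) = 1 := by
    intro p
    simp only [hV, map_prod, mass_U, Finset.prod_const_one]
  have hpow : μ ^ n = ∑ p, W p • V p := by
    conv_lhs => rw [hμ]
    rw [Fintype.sum_pow]
    apply Finset.sum_congr rfl
    intro p _
    simp only [hW, hV, smul_eq_C_mul, Finset.prod_mul_distrib, map_prod]
  choose R0 hR0 using fun p => exists_supp (V p)
  obtain ⟨R1, hR1⟩ := exists_supp (μ ^ n)
  set R' := max R1 (univ.sup R0) with hR'
  have hRn : ∀ y : ℤ, R' ≤ y.natAbs → (μ ^ n).coeff y = 0 := fun y hy =>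
    hR1 y ((le_max_left _ _).trans hy)
  have hRp : ∀ p, ∀ y : ℤ, R' ≤ y.natAbs → (V p).coeff y = 0 := fun p y hy =>
    hR0 p y ((Finset.le_sup (f := R0) (Finset.mem_univ p)).trans ((le_max_right _ _).trans hy))
  have hun : Uni (μ ^ n) := h.pow n
  have hmn : mass (μ ^ n) = 1 := by rw [map_pow, hm, one_pow]
  -- bound for each k
  have hg0 : ∀ k, 0 ≤ G R' k (μ ^ n) := fun k => Finset.sum_nonneg fun r _ =>
    mul_nonneg (wt_nonneg hun r) (s_nonneg k r)
  have hg : ∀ k : ℕ, G R' k (μ ^ n) ≤ ∑ p, W p * min 1 (k * (V p).coeff 0) := by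
    intro k
    have e : G R' k (μ ^ n) = ∑ p, W p * G R' k (V p) := by
      unfold G
      rw [hpow]
      simp only [wt_sum, Finset.sum_mul, Finset.mul_sum]
      rw [Finset.sum_comm]
      apply Finset.sum_congr rfl
      intro p _
      apply Finset.sum_congr rfl
      intro r _
      ring
    rw [e]
    apply Finset.sum_le_sum
    intro p _
    exact mul_le_mul_of_nonneg_left (G_le (hVu p) (hVm p) (hRp p) k) (hW0 p)
  have hsq : ∀ k : ℕ, (G R' k (μ ^ n)) ^ 2 ≤ ∑ p, W p * (9 * ((k:ℝ) ^ 2 /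
      ((k:ℝ) ^ 2 + ∑ j, (((p j : Fin R) : ℕ) : ℝ) ^ 2))) := by
    intro k
    set m : (Fin n → Fin R) → ℝ := fun p => min 1 (k * (V p).coeff 0) with hmdef
    have hm0 : ∀ p, 0 ≤ m p := fun p =>
      le_min zero_le_one (mul_nonneg (Nat.cast_nonneg _) ((hVu p).nonneg 0))
    have h1 : (∑ p, W p * m p) ^ 2 ≤ ∑ p, W p * m p ^ 2 := by
      have := Finset.sum_sq_le_sum_mul_sum_of_sq_le_mul (s := (Finset.univ : Finset (Fin n → Fin R)))
        (r := fun p => W p * m p) (f := W) (g := fun p => W p * m p ^ 2) (fun p _ => hW0 p)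
        (fun p _ => mul_nonneg (hW0 p) (sq_nonneg _)) (fun p _ => le_of_eq (by ring))
      rw [hWs, one_mul] at this
      exact this
    refine (pow_le_pow_left₀ (hg0 k) (hg k) 2).trans (h1.trans ?_)
    apply Finset.sum_le_sum
    intro p _
    apply mul_le_mul_of_nonneg_left _ (hW0 p)
    rcases Nat.eq_zero_or_pos k with rfl | hk
    · simp [hmdef]
    have hk1 : (0:ℝ) < k := by exact_mod_cast hk
    set Q := ∑ j, (((p j : Fin R) : ℕ) : ℝ) ^ 2 with hQ
    have hQ0 : 0 ≤ Q := Finset.sum_nonneg fun i _ => sq_nonneg _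
    have hc := coeff_zero_bound (Finset.univ : Finset (Fin n)) (fun j => ((p j : Fin R) : ℕ))
    have hpos : 0 < (k:ℝ) ^ 2 + Q := by positivity
    rw [mul_div_assoc', le_div_iff₀ hpos]
    have a1 : m p ^ 2 ≤ 1 := by
      have := hm0 p
      have h2 : m p ≤ 1 := min_le_left _ _
      nlinarith
    have a2 : m p ^ 2 ≤ (k:ℝ) ^ 2 * ((V p).coeff 0) ^ 2 := by
      rw [← mul_pow]
      exact pow_le_pow_left₀ (hm0 p) (min_le_right _ _) 2
    have a3 : ((V p).coeff 0) ^ 2 * Q ≤ 8 := hc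
    have b1 : m p ^ 2 * k ^ 2 ≤ k ^ 2 := by
      have := mul_le_mul_of_nonneg_right a1 (sq_nonneg (k:ℝ))
      linarith
    have b2 : m p ^ 2 * Q ≤ 8 * k ^ 2 := by
      have c1 := mul_le_mul_of_nonneg_right a2 hQ0
      have c2 := mul_le_mul_of_nonneg_left a3 (sq_nonneg (k:ℝ))
      linarith
    linarith
  have htot : ∑ k : Fin R, w k * (24 * (G R' k (μ ^ n)) ^ 2) ≤ (216:ℝ) / (n + 1) := by
    have h1 := exch n R w hw0 hws
    have h2 : ∑ k : Fin R, w k * (24 * (G R' k (μ ^ n)) ^ 2) ≤ (216:ℝ) * ∑ k : Fin R, w k *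
        ∑ p : Fin n → Fin R, (∏ j, w (p j)) *
      (((k:ℕ):ℝ) ^ 2 / (((k:ℕ):ℝ) ^ 2 + ∑ j, (((p j : Fin R) : ℕ) : ℝ) ^ 2)) := by
      rw [Finset.mul_sum]
      apply Finset.sum_le_sum
      intro k _
      have h3 := hsq (k:ℕ)
      have h4 : ∑ p, W p * (9 * (((k:ℕ):ℝ) ^ 2 /
          (((k:ℕ):ℝ) ^ 2 + ∑ j, (((p j : Fin R) : ℕ) : ℝ) ^ 2))) =
          9 * ∑ p : Fin n → Fin R, (∏ j, w (p j)) *
      (((k:ℕ):ℝ) ^ 2 / (((k:ℕ):ℝ) ^ 2 + ∑ j, (((p j : Fin R) : ℕ) : ℝ) ^ 2)) := by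
        rw [Finset.mul_sum]
        apply Finset.sum_congr rfl
        intro p _
        simp only [hW]
        ring
      rw [h4] at h3
      have h5 := mul_le_mul_of_nonneg_left h3 (hw0 k)
      linarith
    refine h2.trans ?_
    have : (216:ℝ) / (n + 1) = 216 * (1 / (n + 1)) := by ring
    rw [this]
    exact mul_le_mul_of_nonneg_left h1 (by norm_num)
  have e : (1 - μ) * (μ ^ n * μ ^ n * μ ^ n) =
      ∑ k : Fin R, w k • ((1 - U k) * (μ ^ n * μ ^ n * μ ^ n)) := by
    have : (1 - μ) = ∑ k : Fin R, w k • (1 - U k : L) := by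
      simp only [smul_sub]
      rw [Finset.sum_sub_distrib, ← Finset.sum_smul, hws, one_smul, ← hμ]
    rw [this, Finset.sum_mul]
    apply Finset.sum_congr rfl
    intro k _
    rw [smul_mul_assoc]
  rw [e]
  have hd := Dom.sum (Finset.univ : Finset (Fin R))
    (fun k => w k • ((1 - U k) * (μ ^ n * μ ^ n * μ ^ n))) _ (fun k _ => by
      have h1 := dom_k k R' (wt (μ ^ n)) (fun r => wt_nonneg hun r)
        (by rw [wt_total hun hRn, hmn])
      rw [← repr' hun hRn] at h1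
      exact h1.smul (w k))
  apply hd.mono
  refine le_trans (le_of_eq ?_) htot
  apply Finset.sum_congr rfl
  intro k _
  rw [abs_of_nonneg (hw0 k)]
  rfl

lemma dom_pow_one {μ : L} (h : Uni μ) (hm : mass μ = 1) (n : ℕ) : Dom (μ ^ n) 1 := by
  have := dom_uni (h.pow n)
  rwa [map_pow, hm, one_pow] at this

/-- `‖μⁿ(1-μ)‖ ≤ 648/(n+1)`. -/
theorem main_one {μ : L} (h : Uni μ) (hm : mass μ = 1) (n : ℕ) :
    Dom (μ ^ n * (1 - μ)) (648 / (n + 1)) := by
  have h1 := (main_finite h hm (n / 3)).mul (dom_pow_one h hm (n % 3))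
  have e : (1 - μ) * (μ ^ (n / 3) * μ ^ (n / 3) * μ ^ (n / 3)) * μ ^ (n % 3) = μ ^ n * (1 - μ) := by
    have : μ ^ n = μ ^ (n / 3 + n / 3 + n / 3 + n % 3) := by congr 1; omega
    rw [this, pow_add, pow_add, pow_add]
    ring
  rw [e, mul_one] at h1
  apply h1.mono
  have h2 : (n:ℝ) + 1 ≤ 3 * (((n / 3 : ℕ) : ℝ) + 1) := by
    exact_mod_cast (by omega : n + 1 ≤ 3 * (n / 3 + 1))
  rw [div_le_div_iff₀ (by positivity) (by positivity)]
  linarith

/-- `‖μⁿ(1-μ)^m‖ ≤ (648 m / n)^m`. -/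
theorem main_m {μ : L} (h : Uni μ) (hm : mass μ = 1) (n m : ℕ) :
    Dom (μ ^ n * (1 - μ) ^ m) ((648 * m / (n + 1)) ^ m) := by
  rcases Nat.eq_zero_or_pos m with rfl | hmp
  · simpa using dom_pow_one h hm n
  have h1 := ((main_one h hm (n / m)).pow m).mul (dom_pow_one h hm (n % m))
  have e : (μ ^ (n / m) * (1 - μ)) ^ m * μ ^ (n % m) = μ ^ n * (1 - μ) ^ m := by
    rw [mul_pow, ← pow_mul]
    conv_rhs => rw [← Nat.div_add_mod n m, pow_add, mul_comm m (n / m)]
    ring
  rw [e, mul_one] at h1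
  apply h1.mono
  apply pow_le_pow_left₀ (by positivity)
  have h2 : (n:ℝ) + 1 ≤ m * (((n / m : ℕ) : ℝ) + 1) := by
    have : n + 1 ≤ m * (n / m + 1) := by
      have := Nat.div_add_mod n m
      have := Nat.mod_lt n hmp
      rw [mul_add]; omega
    exact_mod_cast this
  rw [div_le_div_iff₀ (by positivity) (by positivity)]
  nlinarith

end Pool.Agent.Q280.Ritt
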