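import Mathlib

set_option autoImplicit false

open Finset

namespace Pool.Agent.Q280.Ritt

lemma vitali (r : ℤ → ℕ) (n : ℕ) : ∀ F : Finset ℤ, F.card ≤ n → ∃ S ⊆ F,
    (∀ x ∈ S, ∀ y ∈ S, x ≠ y → Disjoint (Icc (x - r x) (x + r x)) (Icc (y - r y) (y + r y))) ∧
      F.card ≤ ∑ x ∈ S, (4 * r x + 1) := by
  induction n with
  | zero =>
    intro F hF
    refine ⟨∅, by simp, by simp, by simpa using hF⟩
  | succ n ih =>
    intro F hF
    rcases F.eq_empty_or_nonempty with rfl | hne
    · exact ⟨∅, by simp, by simp, by simp⟩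
    obtain ⟨x, hx, hmax⟩ := Finset.exists_max_image F r hne
    set F' := F.filter (fun y => Disjoint (Icc (y - r y) (y + r y)) (Icc (x - r x) (x + r x))) with hF'
    have hxF' : x ∉ F' := by
      intro h
      have := (Finset.mem_filter.mp h).2
      rw [Finset.disjoint_left] at this
      exact this (a := x) (by simp) (by simp)
    have hlt : F'.card < F.card := Finset.card_lt_card ⟨Finset.filter_subset _ _, fun h => hxF' (h hx)⟩
    obtain ⟨S', hS', hdis, hcard⟩ := ih F' (by omega)
    have hxS' : x ∉ S' := fun h => hxF' (hS' h)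
    refine ⟨insert x S', ?_, ?_, ?_⟩
    · intro y hy
      rcases Finset.mem_insert.mp hy with rfl | hy
      · exact hx
      · exact (Finset.mem_filter.mp (hS' hy)).1
    · intro y hy z hz hyz
      rcases Finset.mem_insert.mp hy with rfl | hy'
      · rcases Finset.mem_insert.mp hz with rfl | hz'
        · exact absurd rfl hyz
        · exact (Finset.mem_filter.mp (hS' hz')).2.symm
      · rcases Finset.mem_insert.mp hz with rfl | hz'
        · exact (Finset.mem_filter.mp (hS' hy')).2
        · exact hdis y hy' z hz' hyz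
    · rw [Finset.sum_insert hxS']
      have h1 : (F \ F').card ≤ 4 * r x + 1 := by
        have : F \ F' ⊆ Icc (x - 2 * r x) (x + 2 * r x) := by
          intro y hy
          obtain ⟨hyF, hyF'⟩ := Finset.mem_sdiff.mp hy
          have h2 : ¬ Disjoint (Icc (y - r y) (y + r y)) (Icc (x - r x) (x + r x)) := fun h =>
            hyF' (Finset.mem_filter.mpr ⟨hyF, h⟩)
          rw [Finset.not_disjoint_iff] at h2
          obtain ⟨z, hz1, hz2⟩ := h2
          have h3 := hmax y hyF
          rw [Finset.mem_Icc] at hz1 hz2 ⊢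
          omega
        refine (Finset.card_le_card this).trans ?_
        rw [Int.card_Icc]
        omega
      have h2 : F.card = (F \ F').card + F'.card := by
        rw [Finset.card_sdiff_add_card_eq_card (Finset.filter_subset _ _)]
      omega

/-- finite form of the weak type (1,1) inequality. -/
lemma weak (g : ℤ → ℝ) (hg : ∀ x, 0 ≤ g x) (hs : Summable g) {A : ℝ} (hA : 0 < A) (F : Finset ℤ)
    (hF : ∀ x ∈ F, ∃ r : ℕ, A * (2 * r + 1) ≤ ∑ y ∈ Icc (x - r) (x + r), g y) :
    A * F.card ≤ 2 * ∑' x, g x := by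
  classical
  choose! r hr using hF
  obtain ⟨S, hSF, hdis, hcard⟩ := vitali r F.card F le_rfl
  have h1 : ∑ x ∈ S, A * (2 * (r x : ℝ) + 1) ≤ ∑' x, g x := by
    calc ∑ x ∈ S, A * (2 * (r x : ℝ) + 1) ≤ ∑ x ∈ S, ∑ y ∈ Icc (x - (r x : ℤ)) (x + r x), g y :=
          Finset.sum_le_sum fun x hx => hr x (hSF hx)
      _ = ∑ y ∈ S.biUnion (fun x => Icc (x - (r x : ℤ)) (x + r x)), g y := by
          rw [Finset.sum_biUnion]
          intro x hx y hy hxy
          exact hdis x hx y hy hxy
      _ ≤ ∑' x, g x := hs.sum_le_tsum _ fun x _ => hg x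
  have h2 : (F.card : ℝ) ≤ ∑ x ∈ S, (4 * (r x : ℝ) + 1) := by
    exact_mod_cast hcard
  have h3 : ∑ x ∈ S, (4 * (r x : ℝ) + 1) ≤ 2 * ∑ x ∈ S, (2 * (r x : ℝ) + 1) := by
    rw [Finset.mul_sum]
    apply Finset.sum_le_sum
    intro x _
    linarith
  rw [← Finset.mul_sum] at h1
  have h4 := mul_le_mul_of_nonneg_left (h2.trans h3) hA.le
  linarith

end Pool.Agent.Q280.Ritt
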