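import Pool.Agent.Q280.Ritt.Conv
import Pool.Agent.Q280.Ritt.Vitali

set_option autoImplicit false
set_option linter.unusedSectionVars false

open LaurentPolynomial Finset Filter Topology

namespace Pool.Agent.Q280.Ritt

variable {E : Type} [NormedAddCommGroup E] [NormedSpace ℝ E]

/-- translations -/
noncomputable def shift (E : Type) [NormedAddCommGroup E] [NormedSpace ℝ E] :
    Multiplicative ℤ →* Module.End ℝ (ℤ → E) where
  toFun j := { toFun := fun f x => f (x - Multiplicative.toAdd j), map_add' := fun _ _ => rfl,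
               map_smul' := fun _ _ => rfl }
  map_one' := by ext f x; simp
  map_mul' i j := by
    ext f x
    simp only [toAdd_mul, LinearMap.coe_mk, AddHom.coe_mk, Module.End.mul_apply]
    congr 1; ring

/-- action of Laurent polynomials on functions -/
noncomputable def act (E : Type) [NormedAddCommGroup E] [NormedSpace ℝ E] :
    L →ₐ[ℝ] Module.End ℝ (ℤ → E) := AddMonoidAlgebra.lift ℝ _ ℤ (shift E)

lemma act_T (j : ℤ) (f : ℤ → E) (x : ℤ) : act E (T j) f x = f (x - j) := by
  unfold act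
  have : (T j : L) = AddMonoidAlgebra.single j 1 := rfl
  rw [this, AddMonoidAlgebra.lift_single, one_smul]
  rfl

lemma act_apply (K : L) (f : ℤ → E) (x : ℤ) :
    act E K f x = ∑ j ∈ K.coeff.support, K.coeff j • f (x - j) := by
  conv_lhs => rw [L_eq_sum K]
  rw [map_sum, LinearMap.sum_apply, Finset.sum_apply]
  apply Finset.sum_congr rfl
  intro j _
  rw [map_smul, LinearMap.smul_apply, Pi.smul_apply, act_T]

lemma act_apply_of_subset (K : L) {s : Finset ℤ} (hs : K.coeff.support ⊆ s) (f : ℤ → E) (x : ℤ) :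
    act E K f x = ∑ j ∈ s, K.coeff j • f (x - j) := by
  rw [act_apply]
  apply Finset.sum_subset hs
  intro j _ hj
  rw [Finsupp.notMem_support_iff.mp hj, zero_smul]

lemma act_dirac (K : L) (x : ℤ) : act ℝ K dirac x = K.coeff x := by
  rw [act_apply]
  have : ∀ j : ℤ, K.coeff j • dirac (x - j) = if j = x then K.coeff j else 0 := by
    intro j
    unfold dirac
    by_cases h : j = x
    · subst h; simp
    · rw [if_neg h, if_neg (by omega), smul_zero]
  simp only [this]
  rw [Finset.sum_ite_eq']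
  split_ifs with h
  · rfl
  · exact (Finsupp.notMem_support_iff.mp h).symm

lemma mass_eq (K : L) : mass K = ∑ j ∈ K.coeff.support, K.coeff j := by
  conv_lhs => rw [L_eq_sum K]
  rw [map_sum]
  apply Finset.sum_congr rfl
  intro j _
  rw [mass_smul, mass_T, mul_one]

lemma dom_l1 {K : L} {C : ℝ} (h : Dom K C) (F : Finset ℤ) : ∑ x ∈ F, |K.coeff x| ≤ C := by
  classical
  obtain ⟨H, h1, h2, h3⟩ := h
  calc ∑ x ∈ F, |K.coeff x| ≤ ∑ x ∈ F, H.coeff x := Finset.sum_le_sum fun x _ => h3 x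
    _ ≤ ∑ x ∈ F ∪ H.coeff.support, H.coeff x :=
        Finset.sum_le_sum_of_subset_of_nonneg Finset.subset_union_left fun x _ _ => h1.nonneg x
    _ = ∑ x ∈ H.coeff.support, H.coeff x := by
        symm
        apply Finset.sum_subset Finset.subset_union_right
        intro x _ hx
        exact Finsupp.notMem_support_iff.mp hx
    _ = mass H := (mass_eq H).symm
    _ ≤ C := h2

/-- pointwise bound of the action by averages of `‖f‖`. -/
lemma act_bound {K : L} {C A : ℝ} (h : Dom K C) (f : ℤ → E) (x : ℤ)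
    (hA : ∀ r : ℕ, ∑ j ∈ Icc (-(r:ℤ)) r, ‖f (x - j)‖ ≤ A * (2 * r + 1)) :
    ‖act E K f x‖ ≤ C * A := by
  classical
  have hA0 : 0 ≤ A := by
    have := hA 0
    simp at this
    exact (norm_nonneg _).trans this
  obtain ⟨H, h1, h2, h3⟩ := h
  have e1 : ‖act E K f x‖ ≤ act ℝ H (fun y => ‖f y‖) x := by
    rw [act_apply, act_apply]
    have hsub : K.coeff.support ⊆ H.coeff.support := by
      intro j hj
      rw [Finsupp.mem_support_iff] at hj ⊢
      intro h0
      have := h3 j
      rw [h0] at this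
      exact hj (abs_nonpos_iff.mp this)
    calc ‖∑ j ∈ K.coeff.support, K.coeff j • f (x - j)‖
        ≤ ∑ j ∈ K.coeff.support, ‖K.coeff j • f (x - j)‖ := norm_sum_le _ _
      _ ≤ ∑ j ∈ K.coeff.support, H.coeff j • ‖f (x - j)‖ := by
          apply Finset.sum_le_sum
          intro j _
          rw [norm_smul, smul_eq_mul, Real.norm_eq_abs]
          exact mul_le_mul_of_nonneg_right (h3 j) (norm_nonneg _)
      _ ≤ ∑ j ∈ H.coeff.support, H.coeff j • ‖f (x - j)‖ := by
          apply Finset.sum_le_sum_of_subset_of_nonneg hsub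
          intro j _ _
          exact mul_nonneg (h1.nonneg j) (norm_nonneg _)
  obtain ⟨R, hR⟩ := exists_supp H
  have e2 : act ℝ H (fun y => ‖f y‖) x ≤ mass H * A := by
    have hrep := uni_repr h1 hR
    have l1 : act ℝ H (fun y => ‖f y‖) x = ∑ r ∈ range R, (H.coeff r - H.coeff ((r:ℤ) + 1)) *
        ∑ j ∈ Icc (-(r:ℤ)) r, ‖f (x - j)‖ := by
      conv_lhs => rw [hrep]
      rw [map_sum, LinearMap.sum_apply, Finset.sum_apply]
      apply Finset.sum_congr rfl
      intro r _
      rw [map_smul, LinearMap.smul_apply, Pi.smul_apply, smul_eq_mul]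
      congr 1
      unfold D
      rw [map_sum, LinearMap.sum_apply, Finset.sum_apply]
      apply Finset.sum_congr rfl
      intro j _
      rw [act_T]
    have l2 : mass H * A = ∑ r ∈ range R, (H.coeff r - H.coeff ((r:ℤ) + 1)) * (A * (2 * r + 1)) := by
      conv_lhs => rw [hrep]
      rw [map_sum, Finset.sum_mul]
      apply Finset.sum_congr rfl
      intro r _
      rw [mass_smul, mass_D]
      ring
    rw [l1, l2]
    apply Finset.sum_le_sum
    intro r _
    apply mul_le_mul_of_nonneg_left (hA r)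
    linarith [h1.anti r]
  exact e1.trans (e2.trans (mul_le_mul_of_nonneg_right h2 hA0))

/-- truncation of `μ` with the remaining mass put at `0`. -/
noncomputable def trunc (μ : ℤ → ℝ) (R : ℕ) : L :=
  ∑ j ∈ Icc (-(R:ℤ)) R, μ j • (T j : L) + (1 - ∑ j ∈ Icc (-(R:ℤ)) R, μ j) • (1 : L)

lemma coeff_one' (x : ℤ) : (1 : L).coeff x = if x = 0 then 1 else 0 := by
  have := T_apply (R := ℝ) x 0
  rw [T_zero] at this
  rw [this]
  by_cases hx : x = 0
  · simp [hx]
  · rw [if_neg hx, if_neg (fun h => hx h.symm)]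

lemma coeff_trunc (μ : ℤ → ℝ) (R : ℕ) (x : ℤ) : (trunc μ R).coeff x =
    (if x.natAbs ≤ R then μ x else 0) +
      (1 - ∑ j ∈ Icc (-(R:ℤ)) R, μ j) * (if x = 0 then 1 else 0) := by
  unfold trunc
  rw [AddMonoidAlgebra.coeff_add, Finsupp.add_apply, coeff_sum', AddMonoidAlgebra.coeff_smul_apply,
    coeff_one', smul_eq_mul]
  congr 1
  simp only [AddMonoidAlgebra.coeff_smul_apply, T_apply, smul_eq_mul, mul_ite, mul_one, mul_zero]
  rw [Finset.sum_ite_eq']
  have : x ∈ Icc (-(R:ℤ)) R ↔ x.natAbs ≤ R := by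
    rw [Finset.mem_Icc]; omega
  simp only [this]

lemma sum_le_one {μ : ℤ → ℝ} (h : SymNoninc μ) (s : Finset ℤ) : ∑ j ∈ s, μ j ≤ 1 := by
  rw [← h.hasSum.tsum_eq]
  exact h.hasSum.summable.sum_le_tsum _ fun j _ => h.nonneg j

lemma uni_trunc {μ : ℤ → ℝ} (h : SymNoninc μ) (R : ℕ) : Uni (trunc μ R) := by
  have h1 := sum_le_one h (Icc (-(R:ℤ)) R)
  refine ⟨fun x => ?_, fun x => ?_, fun n => ?_⟩
  · rw [coeff_trunc]
    have := h.nonneg x
    split_ifs <;> linarith
  · rw [coeff_trunc, coeff_trunc]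
    simp [h.symm]
  · rw [coeff_trunc, coeff_trunc]
    have h2 := h.anti n
    have h3 := h.nonneg (n:ℤ)
    have h4 := h.nonneg ((n:ℤ) + 1)
    rw [if_neg (show ¬ ((n:ℤ) + 1 = 0) by omega)]
    have h5 : (0:ℝ) ≤ (1 - ∑ j ∈ Icc (-(R:ℤ)) R, μ j) * (if (n:ℤ) = 0 then 1 else 0) := by
      apply mul_nonneg (by linarith)
      split_ifs <;> norm_num
    have h6 : (if ((n:ℤ) + 1).natAbs ≤ R then μ ((n:ℤ) + 1) else 0) ≤
        (if (n:ℤ).natAbs ≤ R then μ n else 0) := by
      split_ifs with a b b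
      · exact h2
      · omega
      · exact h3
      · exact le_rfl
    linarith

lemma mass_trunc (μ : ℤ → ℝ) (R : ℕ) : mass (trunc μ R) = 1 := by
  unfold trunc
  rw [map_add, map_sum, mass_smul, map_one]
  simp only [mass_smul, mass_T]
  simp

variable [CompleteSpace E]

lemma act_trunc (μ : ℤ → ℝ) (R : ℕ) (f : ℤ → E) (x : ℤ) : act E (trunc μ R) f x =
    ∑ j ∈ Icc (-(R:ℤ)) R, μ j • f (x - j) + (1 - ∑ j ∈ Icc (-(R:ℤ)) R, μ j) • f x := by
  unfold trunc
  rw [map_add, map_sum, map_smul, map_one, LinearMap.add_apply, LinearMap.sum_apply,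
    LinearMap.smul_apply, Pi.add_apply, Finset.sum_apply, Pi.smul_apply]
  congr 1
  apply Finset.sum_congr rfl
  intro j _
  rw [map_smul, LinearMap.smul_apply, Pi.smul_apply, act_T]

lemma norm_act_trunc {μ : ℤ → ℝ} (h : SymNoninc μ) (R : ℕ) {f : ℤ → E} {B : ℝ}
    (hf : ∀ x, ‖f x‖ ≤ B) (x : ℤ) : ‖act E (trunc μ R) f x‖ ≤ B := by
  have h1 := sum_le_one h (Icc (-(R:ℤ)) R)
  rw [act_trunc]
  calc _ ≤ ‖∑ j ∈ Icc (-(R:ℤ)) R, μ j • f (x - j)‖ + ‖(1 - ∑ j ∈ Icc (-(R:ℤ)) R, μ j) • f x‖ :=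
        norm_add_le _ _
    _ ≤ (∑ j ∈ Icc (-(R:ℤ)) R, μ j * B) + (1 - ∑ j ∈ Icc (-(R:ℤ)) R, μ j) * B := by
        apply add_le_add
        · refine (norm_sum_le _ _).trans (Finset.sum_le_sum fun j _ => ?_)
          rw [norm_smul, Real.norm_eq_abs, abs_of_nonneg (h.nonneg j)]
          exact mul_le_mul_of_nonneg_left (hf _) (h.nonneg j)
        · rw [norm_smul, Real.norm_eq_abs, abs_of_nonneg (by linarith)]
          exact mul_le_mul_of_nonneg_left (hf _) (by linarith)
    _ = B := by rw [← Finset.sum_mul]; ring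

lemma tendsto_act_trunc {μ : ℤ → ℝ} (h : SymNoninc μ) {f : ℤ → E} {g : ℕ → ℤ → E} {B : ℝ}
    (hg : ∀ R x, ‖g R x‖ ≤ B) (hlim : ∀ x, Tendsto (fun R => g R x) atTop (𝓝 (f x))) (x : ℤ) :
    Tendsto (fun R => act E (trunc μ R) (g R) x) atTop (𝓝 (conv μ f x)) := by
  have key : ∀ {E' : Type} [NormedAddCommGroup E'] [NormedSpace ℝ E'] [CompleteSpace E']
      {f' : ℤ → E'} {g' : ℕ → ℤ → E'} {B' : ℝ}
      (_ : ∀ R x, ‖g' R x‖ ≤ B') (_ : ∀ x, Tendsto (fun R => g' R x) atTop (𝓝 (f' x))),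
      Tendsto (fun R : ℕ => ∑ j ∈ Icc (-(R:ℤ)) R, μ j • g' R (x - j)) atTop
        (𝓝 (∑' j, μ j • f' (x - j))) := by
    intro E' _ _ _ f' g' B' hg' hlim'
    have e : ∀ R : ℕ, ∑ j ∈ Icc (-(R:ℤ)) R, μ j • g' R (x - j) =
        ∑' j, (if j ∈ Icc (-(R:ℤ)) R then μ j • g' R (x - j) else 0) := by
      intro R
      rw [tsum_eq_sum (s := Icc (-(R:ℤ)) R)]
      · apply Finset.sum_congr rfl
        intro j hj
        rw [if_pos hj]
      · intro j hj
        rw [if_neg hj]
    simp only [e]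
    apply tendsto_tsum_of_dominated_convergence (bound := fun j => μ j * B')
      (h.hasSum.summable.mul_right B')
    · intro j
      have h1 : Tendsto (fun R => μ j • g' R (x - j)) atTop (𝓝 (μ j • f' (x - j))) :=
        (hlim' (x - j)).const_smul (μ j)
      apply h1.congr'
      filter_upwards [eventually_ge_atTop j.natAbs] with R hR
      rw [if_pos]
      rw [Finset.mem_Icc]; omega
    · filter_upwards with R j
      have hB' : 0 ≤ B' := (norm_nonneg _).trans (hg' 0 0)
      split_ifs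
      · rw [norm_smul, Real.norm_eq_abs, abs_of_nonneg (h.nonneg j)]
        exact mul_le_mul_of_nonneg_left (hg' _ _) (h.nonneg j)
      · rw [norm_zero]; exact mul_nonneg (h.nonneg j) hB'
  simp only [act_trunc]
  have t1 := key hg hlim
  have t2 : Tendsto (fun R : ℕ => ∑ j ∈ Icc (-(R:ℤ)) R, μ j) atTop (𝓝 1) := by
    have := key (E' := ℝ) (f' := fun _ => (1:ℝ)) (g' := fun _ _ => (1:ℝ)) (B' := 1)
      (by simp) (by simp)
    simp only [smul_eq_mul, mul_one] at this
    rwa [h.hasSum.tsum_eq] at this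
  have t3 : Tendsto (fun R : ℕ => (1 - ∑ j ∈ Icc (-(R:ℤ)) R, μ j) • g R x) atTop (𝓝 0) := by
    have := (t2.const_sub 1).smul (hlim x)
    simpa using this
  have := t1.add t3
  simpa [conv_apply] using this

/-- the operators `μⁿ (1-μ)^m` as a limit. -/
lemma tendsto_main {μ : ℤ → ℝ} (h : SymNoninc μ) {f : ℤ → E} {B : ℝ} (hf : ∀ x, ‖f x‖ ≤ B)
    (n m : ℕ) (x : ℤ) :
    Tendsto (fun R => act E ((trunc μ R) ^ n * (1 - trunc μ R) ^ m) f x) atTop
      (𝓝 ((conv μ)^[n] ((conv (fun j => dirac j - μ j))^[m] f) x)) := by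
  have hμ : Summable fun j => |μ j| := by
    simp only [abs_of_nonneg (h.nonneg _)]
    exact h.hasSum.summable
  have hm : ∀ m : ℕ, (∀ R x, ‖act E ((1 - trunc μ R) ^ m) f x‖ ≤ 2 ^ m * B) ∧
      (∀ x, ‖(conv (fun j => dirac j - μ j))^[m] f x‖ ≤ 2 ^ m * B) ∧
      ∀ x, Tendsto (fun R => act E ((1 - trunc μ R) ^ m) f x) atTop
        (𝓝 ((conv (fun j => dirac j - μ j))^[m] f x)) := by
    intro m
    induction m with
    | zero =>
      refine ⟨fun R x => ?_, fun x => ?_, fun x => ?_⟩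
      · simpa using hf x
      · simpa using hf x
      · simp
    | succ m ih =>
      obtain ⟨i1, i2, i3⟩ := ih
      have e1 : ∀ R x, act E ((1 - trunc μ R) ^ (m + 1)) f x =
          act E ((1 - trunc μ R) ^ m) f x - act E (trunc μ R) (act E ((1 - trunc μ R) ^ m) f) x := by
        intro R x
        rw [pow_succ', map_mul, Module.End.mul_apply, map_sub, map_one, LinearMap.sub_apply]
        rfl
      have e2 : ∀ x, (conv (fun j => dirac j - μ j))^[m + 1] f x =
          (conv (fun j => dirac j - μ j))^[m] f x -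
            conv μ ((conv (fun j => dirac j - μ j))^[m] f) x := by
        intro x
        rw [Function.iterate_succ_apply', conv_sub hμ i2]
      have i3' : ∀ x, Tendsto (fun R => act E ((1 - trunc μ R) ^ (m + 1)) f x) atTop
          (𝓝 ((conv (fun j => dirac j - μ j))^[m + 1] f x)) := by
        intro x
        simp only [e1, e2]
        exact (i3 x).sub (tendsto_act_trunc h i1 i3 x)
      have i1' : ∀ R x, ‖act E ((1 - trunc μ R) ^ (m + 1)) f x‖ ≤ 2 ^ (m + 1) * B := by
        intro R x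
        rw [e1]
        have a := i1 R x
        have b := norm_act_trunc h R (i1 R) x
        have c := norm_sub_le (act E ((1 - trunc μ R) ^ m) f x)
          (act E (trunc μ R) (act E ((1 - trunc μ R) ^ m) f) x)
        rw [pow_succ]
        linarith
      refine ⟨i1', fun x => ?_, i3'⟩
      exact le_of_tendsto ((i3' x).norm) (Eventually.of_forall fun R => i1' R x)
  obtain ⟨j1, j2, j3⟩ := hm m
  have hn : ∀ n : ℕ, (∀ R x, ‖act E ((trunc μ R) ^ n * (1 - trunc μ R) ^ m) f x‖ ≤ 2 ^ m * B) ∧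
      ∀ x, Tendsto (fun R => act E ((trunc μ R) ^ n * (1 - trunc μ R) ^ m) f x) atTop
      (𝓝 ((conv μ)^[n] ((conv (fun j => dirac j - μ j))^[m] f) x)) := by
    intro n
    induction n with
    | zero =>
      simp only [pow_zero, one_mul, Function.iterate_zero, id_eq]
      exact ⟨j1, j3⟩
    | succ n ih =>
      obtain ⟨i1, i2⟩ := ih
      have e1 : ∀ R x, act E ((trunc μ R) ^ (n + 1) * (1 - trunc μ R) ^ m) f x =
          act E (trunc μ R) (act E ((trunc μ R) ^ n * (1 - trunc μ R) ^ m) f) x := by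
        intro R x
        rw [pow_succ', mul_assoc, map_mul, Module.End.mul_apply]
      refine ⟨fun R x => ?_, fun x => ?_⟩
      · rw [e1]; exact norm_act_trunc h R (i1 R) x
      · rw [Function.iterate_succ_apply']
        simp only [e1]
        exact tendsto_act_trunc h i1 i2 x
  exact (hn n).2 x

end Pool.Agent.Q280.Ritt
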